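import Pool.Agent.R892.CC.Grp

/-!
# The corona problem on a quotient by a finite group
-/

set_option autoImplicit false
set_option linter.unusedSectionVars false

open Finset Set

namespace Pool.Agent.R892.CC

/-- The corona problem on `D` for `N` functions and the lower bound `δ` has the solution bound
`C`: if `f_1, …, f_N` are holomorphic on `D` and `δ² < ∑ |f_j|² ≤ 1`, then there are holomorphic
`h_j` with `∑ f_j h_j = 1` and `∑ |h_j|² ≤ C²`. -/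
def CoronaC {X : Type} [NormedAddCommGroup X] [NormedSpace ℂ X] (D : Set X) (N : ℕ)
    (δ C : ℝ) : Prop :=
  ∀ f : Fin N → X → ℂ, Data D N δ f → ∃ h, Sol D f h C

/-- The corona problem on `D` has a positive answer: for bounded holomorphic `f_1, …, f_N` on `D`
with `∑ |f_j|² > δ > 0` there are bounded holomorphic `h_j` with `∑ f_j h_j = 1`. -/
def Cor {X : Type} [NormedAddCommGroup X] [NormedSpace ℂ X] (D : Set X) : Prop :=
  ∀ (N : ℕ) (f : Fin N → X → ℂ), (∀ j, DifferentiableOn ℂ (f j) D) →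
    (∃ M : ℝ, ∀ j, ∀ z ∈ D, ‖f j z‖ ≤ M) →
    (∃ δ : ℝ, 0 < δ ∧ ∀ z ∈ D, δ < ∑ j, ‖f j z‖ ^ 2) →
    ∃ h : Fin N → X → ℂ, (∀ j, DifferentiableOn ℂ (h j) D) ∧
      (∃ M : ℝ, ∀ j, ∀ z ∈ D, ‖h j z‖ ≤ M) ∧ ∀ z ∈ D, ∑ j, f j z * h j z = 1

/-- `π` presents `D` as the quotient of `D'` by a finite group `G` acting on `D'` by holomorphic
maps: `π` is a `G`-invariant holomorphic map of `D'` onto `D`, and every bounded `G`-invariant
holomorphic function on `D'` is `f ∘ π` for a holomorphic `f` on `D`. -/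
structure IsQuot {Y X G : Type} [NormedAddCommGroup Y] [NormedSpace ℂ Y] [NormedAddCommGroup X]
    [NormedSpace ℂ X] [Group G] (ρ : G →* Equiv.Perm Y) (D' : Set Y) (D : Set X)
    (π : Y → X) : Prop where
  act : Act ρ D'
  maps : MapsTo π D' D
  surj : SurjOn π D' D
  hol : DifferentiableOn ℂ π D'
  inv : ∀ g, ∀ z ∈ D', π (ρ g z) = π z
  desc : ∀ F : Y → ℂ, DifferentiableOn ℂ F D' → (∃ M : ℝ, ∀ z ∈ D', ‖F z‖ ≤ M) → Inv ρ D' F →
    ∃ f : X → ℂ, DifferentiableOn ℂ f D ∧ ∀ z ∈ D', f (π z) = F z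

section

variable {X : Type} [NormedAddCommGroup X] [NormedSpace ℂ X]

theorem Sol.le_abs {D : Set X} {N : ℕ} {f h : Fin N → X → ℂ} {C : ℝ} (hh : Sol D f h C) {z : X}
    (hz : z ∈ D) (j : Fin N) : ‖h j z‖ ≤ |C| := by
  have h1 : ‖h j z‖ ^ 2 ≤ C ^ 2 := (Finset.single_le_sum (f := fun j => ‖h j z‖ ^ 2)
    (fun j _ => sq_nonneg _) (Finset.mem_univ j)).trans (hh.le z hz)
  rw [← sq_abs C] at h1
  exact (pow_le_pow_iff_left₀ (norm_nonneg _) (abs_nonneg _) two_ne_zero).1 h1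

theorem cor_iff {D : Set X} : Cor D ↔ ∀ (N : ℕ) (δ : ℝ), 0 < δ → ∀ f : Fin N → X → ℂ,
    Data D N δ f → ∃ C h, Sol D f h C := by
  constructor
  · intro hC N δ hδ f hf
    obtain ⟨h, h1, ⟨M, hM⟩, h3⟩ := hC N f hf.hol ⟨1, fun j z hz => hf.le_one hz j⟩
      ⟨δ ^ 2, by positivity, hf.gt⟩
    refine ⟨Real.sqrt (N * M ^ 2), h, h1, h3, fun z hz => ?_⟩
    rw [Real.sq_sqrt (by positivity)]
    calc ∑ j, ‖h j z‖ ^ 2 ≤ ∑ _j : Fin N, M ^ 2 :=
          Finset.sum_le_sum fun j _ => pow_le_pow_left₀ (norm_nonneg _) (hM j z hz) 2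
      _ = N * M ^ 2 := by
          rw [Finset.sum_const, Finset.card_univ, Fintype.card_fin, nsmul_eq_mul]
  · intro hC N f h1 h2 h3
    obtain ⟨M, hM⟩ := h2
    obtain ⟨δ, hδ, hδ2⟩ := h3
    obtain ⟨K, hK⟩ : ∃ K : ℝ, K = N * |M| + 1 := ⟨_, rfl⟩
    have hM0 := abs_nonneg M
    have hN0 : (0 : ℝ) ≤ N := Nat.cast_nonneg N
    have hK0 : 0 < K := by rw [hK]; positivity
    have hKc : (K : ℂ) ≠ 0 := by exact_mod_cast hK0.ne'
    have hN2 : (N : ℝ) ≤ N ^ 2 := by exact_mod_cast Nat.le_self_pow two_ne_zero N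
    have hK2 : N * |M| ^ 2 ≤ K ^ 2 := by
      rw [hK]
      nlinarith [mul_le_mul_of_nonneg_right hN2 (sq_nonneg |M|), mul_nonneg hN0 hM0]
    have hn : ∀ j z, ‖(K : ℂ)⁻¹ * f j z‖ ^ 2 = (K ^ 2)⁻¹ * ‖f j z‖ ^ 2 := by
      intro j z
      rw [norm_mul, norm_inv, Complex.norm_real, Real.norm_of_nonneg hK0.le, mul_pow, inv_pow]
    have hD : Data D N (Real.sqrt δ / K) (fun j z => (K : ℂ)⁻¹ * f j z) := by
      refine ⟨fun j => (h1 j).const_mul _, fun z hz => ?_, fun z hz => ?_⟩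
      · rw [Finset.sum_congr rfl fun j _ => hn j z, ← Finset.mul_sum, inv_mul_le_iff₀ (by positivity),
          mul_one]
        refine le_trans ?_ hK2
        calc ∑ j, ‖f j z‖ ^ 2 ≤ ∑ _j : Fin N, |M| ^ 2 :=
              Finset.sum_le_sum fun j _ => pow_le_pow_left₀ (norm_nonneg _)
                ((hM j z hz).trans (le_abs_self M)) 2
          _ = N * |M| ^ 2 := by
              rw [Finset.sum_const, Finset.card_univ, Fintype.card_fin, nsmul_eq_mul]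
      · rw [Finset.sum_congr rfl fun j _ => hn j z, ← Finset.mul_sum, div_pow,
          Real.sq_sqrt hδ.le, div_eq_inv_mul]
        exact mul_lt_mul_of_pos_left (hδ2 z hz) (by positivity)
    obtain ⟨C, h, hh⟩ := hC N _ (by positivity) _ hD
    refine ⟨fun j z => (K : ℂ)⁻¹ * h j z, fun j => (hh.hol j).const_mul _,
      ⟨K⁻¹ * |C|, fun j z hz => ?_⟩, fun z hz => ?_⟩
    · rw [norm_mul, norm_inv, Complex.norm_real, Real.norm_of_nonneg hK0.le]
      exact mul_le_mul_of_nonneg_left (hh.le_abs hz j) (by positivity)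
    · rw [← hh.eq z hz]
      refine Finset.sum_congr rfl fun j _ => ?_
      ring

end

section quot

variable {Y X G : Type} [NormedAddCommGroup Y] [NormedSpace ℂ Y] [NormedAddCommGroup X]
    [NormedSpace ℂ X] [Group G] {ρ : G →* Equiv.Perm Y} {D' : Set Y} {D : Set X} {π : Y → X}

theorem IsQuot.down [Fintype G] (hQ : IsQuot ρ D' D π) {N : ℕ} {f : Fin N → X → ℂ}
    {h' : Fin N → Y → ℂ} {C : ℝ} (hs : Sol D' (fun j z => f j (π z)) h' C) :
    ∃ h, Sol D f h C := by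
  obtain ⟨h'', h1, h2⟩ := average hQ.act
    (fun j g z hz => by
      show f j (π (ρ g z)) = f j (π z)
      rw [hQ.inv g z hz]) hs
  have h3 : ∀ j, ∃ f : X → ℂ, DifferentiableOn ℂ f D ∧ ∀ z ∈ D', f (π z) = h'' j z := fun j =>
    hQ.desc (h'' j) (h1.hol j) ⟨|C|, fun z hz => h1.le_abs hz j⟩ (h2 j)
  choose h hh using h3
  refine ⟨h, fun j => (hh j).1, fun w hw => ?_, fun w hw => ?_⟩
  · obtain ⟨z, hz, rfl⟩ := hQ.surj hw
    rw [← h1.eq z hz]
    exact Finset.sum_congr rfl fun j _ => by rw [(hh j).2 z hz]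
  · obtain ⟨z, hz, rfl⟩ := hQ.surj hw
    refine le_trans (le_of_eq ?_) (h1.le z hz)
    exact Finset.sum_congr rfl fun j _ => by rw [(hh j).2 z hz]

theorem IsQuot.up (hQ : IsQuot ρ D' D π) {M : ℕ} {δ : ℝ} {Φ : Fin M → Y → ℂ}
    (hΦ : Data D' M δ Φ) (hi : ∀ i, Inv ρ D' (Φ i)) :
    ∃ φ : Fin M → X → ℂ, Data D M δ φ ∧ ∀ i, ∀ z ∈ D', φ i (π z) = Φ i z := by
  have h3 : ∀ i, ∃ f : X → ℂ, DifferentiableOn ℂ f D ∧ ∀ z ∈ D', f (π z) = Φ i z := fun i =>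
    hQ.desc (Φ i) (hΦ.hol i) ⟨1, fun z hz => hΦ.le_one hz i⟩ (hi i)
  choose φ hφ using h3
  refine ⟨φ, ⟨fun i => (hφ i).1, fun w hw => ?_, fun w hw => ?_⟩, fun i => (hφ i).2⟩
  · obtain ⟨z, hz, rfl⟩ := hQ.surj hw
    rw [Finset.sum_congr rfl fun i _ => by rw [(hφ i).2 z hz]]
    exact hΦ.le z hz
  · obtain ⟨z, hz, rfl⟩ := hQ.surj hw
    rw [Finset.sum_congr rfl fun i _ => by rw [(hφ i).2 z hz]]
    exact hΦ.gt z hz

theorem IsQuot.data (hQ : IsQuot ρ D' D π) {N : ℕ} {δ : ℝ} {f : Fin N → X → ℂ}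
    (hf : Data D N δ f) : Data D' N δ fun j z => f j (π z) :=
  ⟨fun j => (hf.hol j).comp hQ.hol hQ.maps, fun _ hz => hf.le _ (hQ.maps hz),
    fun _ hz => hf.gt _ (hQ.maps hz)⟩

theorem IsQuot.sol (hQ : IsQuot ρ D' D π) {M : ℕ} {C : ℝ} {φ η : Fin M → X → ℂ}
    {Φ : Fin M → Y → ℂ} (hφ : ∀ i, ∀ z ∈ D', φ i (π z) = Φ i z) (hη : Sol D φ η C) :
    Sol D' Φ (fun j z => η j (π z)) C := by
  refine ⟨fun j => (hη.hol j).comp hQ.hol hQ.maps, fun z hz => ?_,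
    fun z hz => hη.le _ (hQ.maps hz)⟩
  rw [← hη.eq _ (hQ.maps hz)]
  exact Finset.sum_congr rfl fun i _ => by rw [hφ i z hz]

/-- The constants for a quotient are at most the constants upstairs. -/
theorem quot_down [Fintype G] (hQ : IsQuot ρ D' D π) {N : ℕ} {δ C : ℝ}
    (hC : CoronaC D' N δ C) : CoronaC D N δ C := by
  intro f hf
  obtain ⟨h', hh'⟩ := hC _ (hQ.data hf)
  exact hQ.down hh'

end quot

/-- The constants upstairs are bounded by constants for the quotient. -/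
theorem quot_up (G : Type) [Group G] [Fintype G] (N : ℕ) : ∃ c : ℝ, 0 < c ∧
    ∀ (Y X : Type) [NormedAddCommGroup Y] [NormedSpace ℂ Y] [NormedAddCommGroup X]
      [NormedSpace ℂ X] (ρ : G →* Equiv.Perm Y) (D' : Set Y) (D : Set X) (π : Y → X),
      IsQuot ρ D' D π → ∀ δ C : ℝ, 0 < δ →
      CoronaC D (Fintype.card G * (N - 1) + 1) (c * δ ^ Fintype.card G) C →
      CoronaC D' N δ C := by
  obtain ⟨c, hc, ht⟩ := transfer G N
  refine ⟨c, hc, ?_⟩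
  intro Y X _ _ _ _ ρ D' D π hQ δ C hδ hC f hf
  obtain ⟨Φ, hΦ, hi, hH⟩ := ht Y ρ D' hQ.act δ hδ f hf
  obtain ⟨φ, hφ, hφΦ⟩ := hQ.up hΦ hi
  obtain ⟨η, hη⟩ := hC φ hφ
  exact hH _ C (hQ.sol hφΦ hη)

theorem quot_cor {Y X G : Type} [NormedAddCommGroup Y] [NormedSpace ℂ Y] [NormedAddCommGroup X]
    [NormedSpace ℂ X] [Group G] [Fintype G] {ρ : G →* Equiv.Perm Y} {D' : Set Y} {D : Set X}
    {π : Y → X} (hQ : IsQuot ρ D' D π) : Cor D ↔ Cor D' := by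
  rw [cor_iff, cor_iff]
  constructor
  · intro hC N δ hδ f hf
    obtain ⟨c, hc, ht⟩ := transfer G N
    obtain ⟨Φ, hΦ, hi, hH⟩ := ht Y ρ D' hQ.act δ hδ f hf
    obtain ⟨φ, hφ, hφΦ⟩ := hQ.up hΦ hi
    obtain ⟨C, η, hη⟩ := hC _ _ (by positivity) φ hφ
    exact ⟨C, hH _ C (hQ.sol hφΦ hη)⟩
  · intro hC N δ hδ f hf
    obtain ⟨C, h', hh'⟩ := hC N δ hδ _ (hQ.data hf)
    exact ⟨C, hQ.down hh'⟩

/-- Unramified quotients: local holomorphic sections, and the fibres are the orbits. -/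
theorem isQuot_of_sections {Y X G : Type} [NormedAddCommGroup Y] [NormedSpace ℂ Y]
    [NormedAddCommGroup X] [NormedSpace ℂ X] [Group G] {ρ : G →* Equiv.Perm Y} {D' : Set Y}
    {D : Set X} {π : Y → X} (hA : Act ρ D') (hm : MapsTo π D' D)
    (hh : DifferentiableOn ℂ π D') (hi : ∀ g, ∀ z ∈ D', π (ρ g z) = π z)
    (hfib : ∀ z ∈ D', ∀ z' ∈ D', π z = π z' → ∃ g, ρ g z = z')
    (hsec : ∀ w ∈ D, ∃ (U : Set X) (σ : X → Y), IsOpen U ∧ w ∈ U ∧ U ⊆ D ∧ MapsTo σ U D' ∧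
      DifferentiableOn ℂ σ U ∧ ∀ x ∈ U, π (σ x) = x) : IsQuot ρ D' D π := by
  classical
  refine ⟨hA, hm, ?_, hh, hi, ?_⟩
  · intro w hw
    obtain ⟨U, σ, _, h2, _, h4, _, h6⟩ := hsec w hw
    exact ⟨σ w, h4 h2, h6 w h2⟩
  · intro F hF _ hFi
    choose! U σ h1 h2 h3 h4 h5 h6 using hsec
    refine ⟨fun w => F (σ w w), ?_, ?_⟩
    · intro w hw
      have h7 : ∀ x ∈ U w, F (σ x x) = F (σ w x) := by
        intro x hx
        have hxD := h3 w hw hx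
        obtain ⟨g, hg⟩ := hfib _ (h4 x hxD (h2 x hxD)) _ (h4 w hw hx)
          (by rw [h6 x hxD x (h2 x hxD), h6 w hw x hx])
        rw [← hg, hFi g _ (h4 x hxD (h2 x hxD))]
      have h8 : DifferentiableAt ℂ (fun x => F (σ w x)) w :=
        ((hF.comp (h5 w hw) (h4 w hw)) w (h2 w hw)).differentiableAt
          ((h1 w hw).mem_nhds (h2 w hw))
      refine (h8.congr_of_eventuallyEq ?_).differentiableWithinAt
      filter_upwards [(h1 w hw).mem_nhds (h2 w hw)] with x hx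
      exact h7 x hx
    · intro z hz
      have hw := hm hz
      obtain ⟨g, hg⟩ := hfib _ (h4 _ hw (h2 _ hw)) z hz (h6 _ hw _ (h2 _ hw))
      rw [← hg, hFi g _ (h4 _ hw (h2 _ hw))]
      simp only
      rw [hi g _ (h4 _ hw (h2 _ hw)), h6 _ hw _ (h2 _ hw)]

end Pool.Agent.R892.CC
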