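import Pool.Agent.R892.CC.Sym
import Pool.Agent.R892.CC.Quot

/-!
# The corona problem and finite branched coverings
-/

set_option autoImplicit false
set_option linter.unusedSectionVars false

open Finset Set

namespace Pool.Agent.R892.CC

/-- `π : D' → D` is a finite branched covering with `m` sheets, whose fibre over `w`, with
multiplicities, is `fib w 1, …, fib w m`: `π` is holomorphic, each point of `D'` occurs in its
fibre, and for each bounded holomorphic `F` on `D'` the sum of `F` over the fibres is holomorphic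
on `D`. -/
structure IsCov {Y X : Type} [NormedAddCommGroup Y] [NormedSpace ℂ Y] [NormedAddCommGroup X]
    [NormedSpace ℂ X] {m : ℕ} (D' : Set Y) (D : Set X) (π : Y → X) (fib : X → Fin m → Y) :
    Prop where
  maps : MapsTo π D' D
  hol : DifferentiableOn ℂ π D'
  fib_mem : ∀ w ∈ D, ∀ i, fib w i ∈ D'
  fib_eq : ∀ w ∈ D, ∀ i, π (fib w i) = w
  mem_fib : ∀ z ∈ D', ∃ i, fib (π z) i = z
  tr : ∀ F : Y → ℂ, DifferentiableOn ℂ F D' → (∃ M : ℝ, ∀ z ∈ D', ‖F z‖ ≤ M) →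
    DifferentiableOn ℂ (fun w => ∑ i, F (fib w i)) D

section

variable {Y X : Type} [NormedAddCommGroup Y] [NormedSpace ℂ Y] [NormedAddCommGroup X]
    [NormedSpace ℂ X] {m : ℕ} {D' : Set Y} {D : Set X} {π : Y → X} {fib : X → Fin m → Y}

theorem IsCov.down (hQ : IsCov D' D π fib) (hm : 0 < m) {N : ℕ} {f : Fin N → X → ℂ}
    {h' : Fin N → Y → ℂ} {C : ℝ} (hs : Sol D' (fun j z => f j (π z)) h' C) :
    ∃ h, Sol D f h C := by
  have hm0 : (0 : ℝ) < m := by exact_mod_cast hm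
  have hmc : (m : ℂ) ≠ 0 := by exact_mod_cast hm.ne'
  refine ⟨fun j w => (m : ℂ)⁻¹ * ∑ i, h' j (fib w i), fun j => ?_, fun w hw => ?_, fun w hw => ?_⟩
  · exact (hQ.tr (h' j) (hs.hol j) ⟨|C|, fun z hz => hs.le_abs hz j⟩).const_mul _
  · have h1 : ∀ j, f j w * ((m : ℂ)⁻¹ * ∑ i, h' j (fib w i)) =
        (m : ℂ)⁻¹ * ∑ i, f j (π (fib w i)) * h' j (fib w i) := by
      intro j
      have h2 : ∀ i, f j (π (fib w i)) * h' j (fib w i) = f j w * h' j (fib w i) := fun i => by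
        rw [hQ.fib_eq w hw i]
      rw [Finset.sum_congr rfl fun i _ => h2 i, ← Finset.mul_sum]
      ring
    rw [Finset.sum_congr rfl fun j _ => h1 j, ← Finset.mul_sum, Finset.sum_comm]
    have h3 : ∀ i, ∑ j, f j (π (fib w i)) * h' j (fib w i) = 1 := fun i =>
      hs.eq _ (hQ.fib_mem w hw i)
    rw [Finset.sum_congr rfl fun i _ => h3 i, Finset.sum_const, nsmul_eq_mul, mul_one,
      Finset.card_univ, Fintype.card_fin, inv_mul_cancel₀ hmc]
  · have h1 : ∀ j, ‖(m : ℂ)⁻¹ * ∑ i, h' j (fib w i)‖ ^ 2 ≤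
        (m : ℝ)⁻¹ * ∑ i, ‖h' j (fib w i)‖ ^ 2 := by
      intro j
      rw [norm_mul, norm_inv, Complex.norm_natCast, mul_pow]
      have h2 : ‖∑ i, h' j (fib w i)‖ ^ 2 ≤ m * ∑ i, ‖h' j (fib w i)‖ ^ 2 := by
        calc ‖∑ i, h' j (fib w i)‖ ^ 2 ≤ (∑ i, ‖h' j (fib w i)‖) ^ 2 :=
              pow_le_pow_left₀ (norm_nonneg _) (norm_sum_le _ _) 2
          _ = (∑ i, 1 * ‖h' j (fib w i)‖) ^ 2 := by simp
          _ ≤ (∑ _i : Fin m, (1 : ℝ) ^ 2) * ∑ i, ‖h' j (fib w i)‖ ^ 2 :=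
              Finset.sum_mul_sq_le_sq_mul_sq _ _ _
          _ = m * ∑ i, ‖h' j (fib w i)‖ ^ 2 := by
              rw [one_pow, Finset.sum_const, nsmul_eq_mul, mul_one, Finset.card_univ,
                Fintype.card_fin]
      calc (m : ℝ)⁻¹ ^ 2 * ‖∑ i, h' j (fib w i)‖ ^ 2 ≤
            (m : ℝ)⁻¹ ^ 2 * (m * ∑ i, ‖h' j (fib w i)‖ ^ 2) :=
            mul_le_mul_of_nonneg_left h2 (by positivity)
        _ = (m : ℝ)⁻¹ * ∑ i, ‖h' j (fib w i)‖ ^ 2 := by field_simp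
    calc ∑ j, ‖(m : ℂ)⁻¹ * ∑ i, h' j (fib w i)‖ ^ 2 ≤
          ∑ j, (m : ℝ)⁻¹ * ∑ i, ‖h' j (fib w i)‖ ^ 2 := Finset.sum_le_sum fun j _ => h1 j
      _ = (m : ℝ)⁻¹ * ∑ i, ∑ j, ‖h' j (fib w i)‖ ^ 2 := by rw [← Finset.mul_sum, Finset.sum_comm]
      _ ≤ (m : ℝ)⁻¹ * ∑ _i : Fin m, C ^ 2 := by
          refine mul_le_mul_of_nonneg_left ?_ (by positivity)
          exact Finset.sum_le_sum fun i _ => hs.le _ (hQ.fib_mem w hw i)
      _ = C ^ 2 := by
          rw [Finset.sum_const, nsmul_eq_mul, Finset.card_univ, Fintype.card_fin]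
          field_simp

theorem IsCov.data (hQ : IsCov D' D π fib) {N : ℕ} {δ : ℝ} {f : Fin N → X → ℂ}
    (hf : Data D N δ f) : Data D' N δ fun j z => f j (π z) :=
  ⟨fun j => (hf.hol j).comp hQ.hol hQ.maps, fun _ hz => hf.le _ (hQ.maps hz),
    fun _ hz => hf.gt _ (hQ.maps hz)⟩

theorem cov_down (hQ : IsCov D' D π fib) (hm : 0 < m) {N : ℕ} {δ C : ℝ}
    (hC : CoronaC D' N δ C) : CoronaC D N δ C := by
  intro f hf
  obtain ⟨h', hh'⟩ := hC _ (hQ.data hf)
  exact hQ.down hm hh'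

end

/-- Reduction of data on a finite branched covering to data on the base. -/
theorem cov_transfer (m : ℕ) (hm : 0 < m) (N : ℕ) : ∃ c : ℝ, 0 < c ∧
    ∀ (Y X : Type) [NormedAddCommGroup Y] [NormedSpace ℂ Y] [NormedAddCommGroup X]
      [NormedSpace ℂ X] (D' : Set Y) (D : Set X) (π : Y → X) (fib : X → Fin m → Y),
      IsCov D' D π fib → ∀ δ : ℝ, 0 < δ → ∀ f : Fin N → Y → ℂ, Data D' N δ f →
      ∃ φ : Fin (m * (N - 1) + 1) → X → ℂ, Data D (m * (N - 1) + 1) (c * δ ^ m) φ ∧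
        ∀ (η : Fin (m * (N - 1) + 1) → X → ℂ) (C : ℝ), Sol D φ η C → ∃ h, Sol D' f h C := by
  classical
  obtain ⟨M, hM⟩ : ∃ M, M = m * (N - 1) + 1 := ⟨_, rfl⟩
  rw [← hM]
  obtain ⟨c, hc, hc1, hgood⟩ := exists_good (ι := Fin m) (N := N) (M := M)
    (by rw [hM, Fintype.card_fin]; omega)
  have hM0 : (0 : ℝ) < M := by rw [hM]; positivity
  obtain ⟨B, hB⟩ : ∃ B : ℝ, B = m * 2 ^ m := ⟨_, rfl⟩
  have hm1 : (1 : ℝ) ≤ m := by exact_mod_cast hm
  have hB1 : 1 ≤ B := by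
    rw [hB]
    exact one_le_mul_of_one_le_of_one_le hm1 (one_le_pow₀ one_le_two)
  obtain ⟨κ, hκ⟩ : ∃ κ : ℝ, κ = (((N : ℝ) + 1) * B)⁻¹ := ⟨_, rfl⟩
  obtain ⟨s, hs⟩ : ∃ s : ℝ, s = (Real.sqrt M)⁻¹ := ⟨_, rfl⟩
  have hN0 : (0 : ℝ) ≤ N := Nat.cast_nonneg N
  have hB0 : 0 < B := by linarith
  have hκ0 : 0 < κ := by rw [hκ]; positivity
  have hs0 : 0 < s := by rw [hs]; positivity
  have hs2 : s ^ 2 * M = 1 := by
    rw [hs, inv_pow, Real.sq_sqrt hM0.le, inv_mul_cancel₀ hM0.ne']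
  have hκB : κ * B = ((N : ℝ) + 1)⁻¹ := by
    rw [hκ]
    field_simp
  have hκB1 : κ * B ≤ 1 := by
    rw [hκB]
    exact inv_le_one_of_one_le₀ (by linarith)
  have hκBN : κ * B * N ≤ 1 := by
    rw [hκB, inv_mul_le_iff₀ (by positivity)]
    linarith
  have hκ1 : κ ≤ 1 := by
    refine le_trans ?_ hκB1
    exact le_mul_of_one_le_right hκ0.le hB1
  have hκN : κ * N ≤ 1 := by
    refine le_trans ?_ hκBN
    exact mul_le_mul_of_nonneg_right (le_mul_of_one_le_right hκ0.le hB1) hN0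
  refine ⟨s * (κ * (c * κ)) ^ m, by positivity, ?_⟩
  intro Y X _ _ _ _ D' D π fib hQ δ hδ f hf
  obtain ⟨L, hL⟩ : ∃ L : Fin M → Y → ℂ, L = fun i z => (κ : ℂ) * ev i (fun j => f j z) := ⟨_, rfl⟩
  have hLhol : ∀ i, DifferentiableOn ℂ (L i) D' := by
    intro i
    rw [hL]
    simp only [ev]
    refine DifferentiableOn.const_mul ?_ _
    refine DifferentiableOn.fun_sum fun j _ => ?_
    exact (hf.hol j).const_mul _
  have hLle : ∀ i, ∀ z ∈ D', ‖L i z‖ ≤ 1 := by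
    intro i z hz
    rw [hL]
    simp only
    rw [norm_mul, Complex.norm_real, Real.norm_of_nonneg hκ0.le]
    calc κ * ‖ev i fun j => f j z‖ ≤ κ * ∑ j : Fin N, ‖f j z‖ :=
          mul_le_mul_of_nonneg_left (ev_le _ _) hκ0.le
      _ ≤ κ * ∑ _j : Fin N, (1 : ℝ) := mul_le_mul_of_nonneg_left
          (Finset.sum_le_sum fun j _ => hf.le_one hz j) hκ0.le
      _ = κ * N := by simp
      _ ≤ 1 := hκN
  have hes : ∀ i r, DifferentiableOn ℂ (fun w => es r fun g => L i (fib w g)) D := by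
    intro i r
    refine es_hol (x := fun w g => L i (fib w g)) (fun r => ?_) r
    exact hQ.tr (fun z => L i z ^ r) ((hLhol i).pow r) ⟨1, fun z hz => by
      rw [norm_pow]
      exact pow_le_one₀ (norm_nonneg _) (hLle i z hz)⟩
  obtain ⟨R, hR⟩ : ∃ R : Fin M → Y → ℂ, R = fun i z => cof (fun g => L i (fib (π z) g)) (L i z) :=
    ⟨_, rfl⟩
  have hRhol : ∀ i, DifferentiableOn ℂ (R i) D' := by
    intro i
    rw [hR]
    simp only [cof]
    refine DifferentiableOn.fun_sum fun j _ => ?_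
    exact ((hes i j).comp hQ.hol hQ.maps).mul ((hLhol i).neg.pow _)
  have hRle : ∀ i, ∀ z ∈ D', ‖R i z‖ ≤ B := by
    intro i z hz
    rw [hR, hB]
    exact cof_le (fun g => hLle i _ (hQ.fib_mem _ (hQ.maps hz) g)) (hLle i z hz)
  obtain ⟨φ, hφ⟩ : ∃ φ : Fin M → X → ℂ, φ = fun i w => (s : ℂ) * ∏ g, L i (fib w g) := ⟨_, rfl⟩
  have hφR : ∀ i, ∀ z ∈ D', φ i (π z) = (s : ℂ) * (L i z * R i z) := by
    intro i z hz
    rw [hφ, hR]
    simp only
    obtain ⟨g, hg⟩ := hQ.mem_fib z hz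
    rw [prod_cof (fun g => L i (fib (π z) g)) g, hg]
  have hφn : ∀ i w, ‖φ i w‖ = s * ∏ g, ‖L i (fib w g)‖ := by
    intro i w
    rw [hφ]
    simp only
    rw [norm_mul, norm_prod, Complex.norm_real, Real.norm_of_nonneg hs0.le]
  refine ⟨φ, ⟨?_, ?_, ?_⟩, ?_⟩
  · intro i
    rw [hφ]
    refine DifferentiableOn.const_mul ?_ _
    simp only [← es_top]
    exact hes i m
  · intro w hw
    calc ∑ i, ‖φ i w‖ ^ 2 ≤ ∑ _i : Fin M, s ^ 2 := by
          refine Finset.sum_le_sum fun i _ => ?_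
          rw [hφn]
          have h1 : ∏ g, ‖L i (fib w g)‖ ≤ 1 :=
            Finset.prod_le_one (fun g _ => norm_nonneg _) fun g _ => hLle i _ (hQ.fib_mem w hw g)
          have h0 : 0 ≤ ∏ g, ‖L i (fib w g)‖ := Finset.prod_nonneg fun g _ => norm_nonneg _
          have h2 : s * ∏ g, ‖L i (fib w g)‖ ≤ s := mul_le_of_le_one_right hs0.le h1
          exact pow_le_pow_left₀ (by positivity) h2 2
      _ = s ^ 2 * M := by
          rw [Finset.sum_const, Finset.card_univ, Fintype.card_fin, nsmul_eq_mul]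
          ring
      _ ≤ 1 := hs2.le
  · intro w hw
    obtain ⟨i, hi⟩ := hgood fun g j => f j (fib w g)
    have hlow : ∀ g, κ * (c * κ) * δ < ‖L i (fib w g)‖ := by
      intro g
      have hzg := hQ.fib_mem w hw g
      have h1 := hf.gt _ hzg
      obtain ⟨v, hv⟩ : ∃ v : Fin N → ℂ, v = fun j => f j (fib w g) := ⟨_, rfl⟩
      have h2 : ∑ j, ‖f j (fib w g)‖ ^ 2 ≤ N * ‖v‖ ^ 2 := by
        calc ∑ j, ‖f j (fib w g)‖ ^ 2 ≤ ∑ _j : Fin N, ‖v‖ ^ 2 := by
              refine Finset.sum_le_sum fun j _ => ?_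
              have h3 : ‖f j (fib w g)‖ ≤ ‖v‖ := by
                have := norm_le_pi_norm v j
                rwa [hv] at this ⊢
              exact pow_le_pow_left₀ (norm_nonneg _) h3 2
          _ = N * ‖v‖ ^ 2 := by
              rw [Finset.sum_const, Finset.card_univ, Fintype.card_fin, nsmul_eq_mul]
      have h4 : κ * δ < ‖v‖ := by
        by_contra hcon
        push Not at hcon
        have h5 : ‖v‖ ^ 2 ≤ (κ * δ) ^ 2 := pow_le_pow_left₀ (norm_nonneg _) hcon 2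
        have h6 : (N : ℝ) * ‖v‖ ^ 2 ≤ N * (κ * δ) ^ 2 := mul_le_mul_of_nonneg_left h5 hN0
        have h7 : (N : ℝ) * (κ * δ) ^ 2 ≤ δ ^ 2 := by
          have h8 : (N : ℝ) * (κ * δ) ^ 2 = (κ * N) * (κ * δ ^ 2) := by ring
          rw [h8]
          calc (κ * N) * (κ * δ ^ 2) ≤ 1 * (κ * δ ^ 2) :=
                mul_le_mul_of_nonneg_right hκN (by positivity)
            _ ≤ 1 * (1 * δ ^ 2) := by
                refine mul_le_mul_of_nonneg_left ?_ zero_le_one
                exact mul_le_mul_of_nonneg_right hκ1 (by positivity)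
            _ = δ ^ 2 := by ring
        linarith
      have h9 := hi g
      rw [hL]
      simp only
      rw [norm_mul, Complex.norm_real, Real.norm_of_nonneg hκ0.le]
      have h10 : c * (κ * δ) < c * ‖v‖ := mul_lt_mul_of_pos_left h4 hc
      rw [hv] at h10
      calc κ * (c * κ) * δ = κ * (c * (κ * δ)) := by ring
        _ < κ * (c * ‖fun j => f j (fib w g)‖) := mul_lt_mul_of_pos_left h10 hκ0
        _ ≤ κ * ‖ev i fun j => f j (fib w g)‖ := mul_le_mul_of_nonneg_left h9 hκ0.le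
    have h1 : (κ * (c * κ) * δ) ^ m < ∏ g, ‖L i (fib w g)‖ := by
      have h2 : (κ * (c * κ) * δ) ^ m = ∏ _g : Fin m, (κ * (c * κ) * δ) := by
        rw [Finset.prod_const, Finset.card_univ, Fintype.card_fin]
      rw [h2]
      exact Finset.prod_lt_prod_of_nonempty (fun g _ => by positivity) (fun g _ => hlow g)
        ⟨⟨0, hm⟩, Finset.mem_univ _⟩
    have h2 : s * (κ * (c * κ)) ^ m * δ ^ m < ‖φ i w‖ := by
      rw [hφn, mul_assoc, ← mul_pow]
      exact mul_lt_mul_of_pos_left h1 hs0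
    calc (s * (κ * (c * κ)) ^ m * δ ^ m) ^ 2 < ‖φ i w‖ ^ 2 :=
          pow_lt_pow_left₀ h2 (by positivity) two_ne_zero
      _ ≤ ∑ i, ‖φ i w‖ ^ 2 := Finset.single_le_sum (f := fun i => ‖φ i w‖ ^ 2)
          (fun i _ => sq_nonneg _) (Finset.mem_univ i)
  · intro H C hH
    refine ⟨fun j z => ∑ i, (s * κ : ℂ) * pt i ^ (j : ℕ) * (R i z * H i (π z)), ?_, ?_, ?_⟩
    · intro j
      refine DifferentiableOn.fun_sum fun i _ => ?_
      exact ((hRhol i).mul ((hH.hol i).comp hQ.hol hQ.maps)).const_mul _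
    · intro z hz
      rw [← hH.eq (π z) (hQ.maps hz)]
      have h1 : ∀ j, f j z * ∑ i, (s * κ : ℂ) * pt i ^ (j : ℕ) * (R i z * H i (π z)) =
          ∑ i, (s * κ : ℂ) * (pt i ^ (j : ℕ) * f j z) * (R i z * H i (π z)) := by
        intro j
        rw [Finset.mul_sum]
        refine Finset.sum_congr rfl fun i _ => ?_
        ring
      rw [Finset.sum_congr rfl fun j _ => h1 j, Finset.sum_comm]
      refine Finset.sum_congr rfl fun i _ => ?_
      rw [hφR i z hz, hL]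
      simp only [ev]
      rw [← Finset.sum_mul, ← Finset.mul_sum]
      ring
    · intro z hz
      have hS : (∑ i, s * ‖H i (π z)‖) ^ 2 ≤ C ^ 2 := by
        calc (∑ i, s * ‖H i (π z)‖) ^ 2 ≤ (∑ _i : Fin M, s ^ 2) * ∑ i, ‖H i (π z)‖ ^ 2 :=
              Finset.sum_mul_sq_le_sq_mul_sq _ _ _
          _ = ∑ i, ‖H i (π z)‖ ^ 2 := by
              rw [Finset.sum_const, Finset.card_univ, Fintype.card_fin, nsmul_eq_mul]
              have : (M : ℝ) * s ^ 2 = 1 := by rw [mul_comm]; exact hs2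
              rw [this, one_mul]
          _ ≤ C ^ 2 := hH.le _ (hQ.maps hz)
      have hj : ∀ j : Fin N, ‖∑ i, (s * κ : ℂ) * pt i ^ (j : ℕ) * (R i z * H i (π z))‖ ≤
          κ * B * ∑ i, s * ‖H i (π z)‖ := by
        intro j
        rw [Finset.mul_sum]
        refine (norm_sum_le _ _).trans (Finset.sum_le_sum fun i _ => ?_)
        rw [norm_mul, norm_mul, norm_mul, norm_mul, norm_pow, Complex.norm_real, Complex.norm_real,
          Real.norm_of_nonneg hs0.le, Real.norm_of_nonneg hκ0.le]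
        have h1 : ‖pt i‖ ^ (j : ℕ) ≤ 1 := pow_le_one₀ (norm_nonneg _) (pt_le i)
        have h2 : ‖R i z‖ * ‖H i (π z)‖ ≤ B * ‖H i (π z)‖ :=
          mul_le_mul_of_nonneg_right (hRle i z hz) (norm_nonneg _)
        calc s * κ * ‖pt i‖ ^ (j : ℕ) * (‖R i z‖ * ‖H i (π z)‖) ≤
              s * κ * 1 * (B * ‖H i (π z)‖) := by
              refine mul_le_mul ?_ h2 (by positivity) (by positivity)
              exact mul_le_mul_of_nonneg_left h1 (by positivity)
          _ = κ * B * (s * ‖H i (π z)‖) := by ring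
      have hS0 : 0 ≤ ∑ i, s * ‖H i (π z)‖ := Finset.sum_nonneg fun i _ => by positivity
      calc ∑ j : Fin N, ‖∑ i, (s * κ : ℂ) * pt i ^ (j : ℕ) * (R i z * H i (π z))‖ ^ 2 ≤
            ∑ _j : Fin N, (κ * B * ∑ i, s * ‖H i (π z)‖) ^ 2 := by
            refine Finset.sum_le_sum fun j _ => ?_
            exact pow_le_pow_left₀ (norm_nonneg _) (hj j) 2
        _ = (κ * B * N) * (κ * B * (∑ i, s * ‖H i (π z)‖) ^ 2) := by
            rw [Finset.sum_const, Finset.card_univ, Fintype.card_fin, nsmul_eq_mul]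
            ring
        _ ≤ 1 * (1 * (∑ i, s * ‖H i (π z)‖) ^ 2) := by
            refine mul_le_mul hκBN ?_ (by positivity) zero_le_one
            exact mul_le_mul_of_nonneg_right hκB1 (by positivity)
        _ ≤ C ^ 2 := by rw [one_mul, one_mul]; exact hS

/-- The constants upstairs are bounded by constants for the base. -/
theorem cov_up (m : ℕ) (hm : 0 < m) (N : ℕ) : ∃ c : ℝ, 0 < c ∧
    ∀ (Y X : Type) [NormedAddCommGroup Y] [NormedSpace ℂ Y] [NormedAddCommGroup X]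
      [NormedSpace ℂ X] (D' : Set Y) (D : Set X) (π : Y → X) (fib : X → Fin m → Y),
      IsCov D' D π fib → ∀ δ C : ℝ, 0 < δ →
      CoronaC D (m * (N - 1) + 1) (c * δ ^ m) C → CoronaC D' N δ C := by
  obtain ⟨c, hc, ht⟩ := cov_transfer m hm N
  refine ⟨c, hc, ?_⟩
  intro Y X _ _ _ _ D' D π fib hQ δ C hδ hC f hf
  obtain ⟨φ, hφ, hH⟩ := ht Y X D' D π fib hQ δ hδ f hf
  obtain ⟨η, hη⟩ := hC φ hφ
  exact hH η C hη

theorem cov_cor {Y X : Type} [NormedAddCommGroup Y] [NormedSpace ℂ Y] [NormedAddCommGroup X]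
    [NormedSpace ℂ X] {m : ℕ} (hm : 0 < m) {D' : Set Y} {D : Set X} {π : Y → X}
    {fib : X → Fin m → Y} (hQ : IsCov D' D π fib) : Cor D ↔ Cor D' := by
  rw [cor_iff, cor_iff]
  constructor
  · intro hC N δ hδ f hf
    obtain ⟨c, hc, ht⟩ := cov_transfer m hm N
    obtain ⟨φ, hφ, hH⟩ := ht Y X D' D π fib hQ δ hδ f hf
    obtain ⟨C, η, hη⟩ := hC _ _ (by positivity) φ hφ
    exact ⟨C, hH η C hη⟩
  · intro hC N δ hδ f hf
    obtain ⟨C, h', hh'⟩ := hC N δ hδ _ (hQ.data hf)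
    exact ⟨C, hQ.down hm hh'⟩

/-- An unramified covering with `m` sheets, given by local holomorphic sections. -/
structure Unram {Y X : Type} [NormedAddCommGroup Y] [NormedSpace ℂ Y] [NormedAddCommGroup X]
    [NormedSpace ℂ X] (m : ℕ) (D' : Set Y) (D : Set X) (π : Y → X) : Prop where
  maps : MapsTo π D' D
  hol : DifferentiableOn ℂ π D'
  sec : ∀ w ∈ D, ∃ (U : Set X) (σ : Fin m → X → Y), IsOpen U ∧ w ∈ U ∧ U ⊆ D ∧
    (∀ i, DifferentiableOn ℂ (σ i) U) ∧ ∀ x ∈ U, (∀ i, σ i x ∈ D' ∧ π (σ i x) = x) ∧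
      (Function.Injective fun i => σ i x) ∧ ∀ z ∈ D', π z = x → ∃ i, σ i x = z

theorem Unram.isCov {Y X : Type} [NormedAddCommGroup Y] [NormedSpace ℂ Y] [NormedAddCommGroup X]
    [NormedSpace ℂ X] {m : ℕ} {D' : Set Y} {D : Set X} {π : Y → X} [Nonempty Y]
    (h : Unram m D' D π) : ∃ fib : X → Fin m → Y, IsCov D' D π fib := by
  classical
  obtain ⟨hm, hh, hsec⟩ := h
  choose! U σ h1 h2 h3 h4 h5 using hsec
  have h6 : ∀ x ∈ D, (∀ i, σ x i x ∈ D' ∧ π (σ x i x) = x) ∧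
      (Function.Injective fun i => σ x i x) ∧ ∀ z ∈ D', π z = x → ∃ i, σ x i x = z :=
    fun x hx => h5 x hx x (h2 x hx)
  refine ⟨fun w i => σ w i w, hm, hh, fun w hw i => ((h6 w hw).1 i).1,
    fun w hw i => ((h6 w hw).1 i).2, fun z hz => (h6 _ (hm hz)).2.2 z hz rfl, ?_⟩
  intro F hF _ w hw
  have h7 : ∀ x ∈ U w, ∑ i, F (σ x i x) = ∑ i, F (σ w i x) := by
    intro x hx
    have hxD := h3 w hw hx
    obtain ⟨ha1, ha2, ha3⟩ := h6 x hxD
    obtain ⟨hb1, hb2, hb3⟩ := h5 w hw x hx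
    have e1 : ∀ i, ∃ j, σ w j x = σ x i x := fun i => hb3 _ (ha1 i).1 (ha1 i).2
    choose e he using e1
    have hinj : Function.Injective e := by
      intro i j hij
      apply ha2
      show σ x i x = σ x j x
      rw [← he i, ← he j, hij]
    have hbij : Function.Bijective e := Finite.injective_iff_bijective.1 hinj
    rw [← Equiv.sum_comp (Equiv.ofBijective e hbij) fun i => F (σ w i x)]
    refine Finset.sum_congr rfl fun i _ => ?_
    rw [Equiv.ofBijective_apply, he]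
  have h8 : DifferentiableAt ℂ (fun x => ∑ i, F (σ w i x)) w := by
    refine DifferentiableAt.fun_sum fun i _ => ?_
    have h9 : DifferentiableOn ℂ (fun x => F (σ w i x)) (U w) :=
      hF.comp (h4 w hw i) fun x hx => ((h5 w hw x hx).1 i).1
    exact (h9 w (h2 w hw)).differentiableAt ((h1 w hw).mem_nhds (h2 w hw))
  refine (h8.congr_of_eventuallyEq ?_).differentiableWithinAt
  filter_upwards [(h1 w hw).mem_nhds (h2 w hw)] with x hx
  exact h7 x hx

end Pool.Agent.R892.CC
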