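import Pool.Agent.R892.CC.Pow

/-!
# Power maps of all coordinates, and complex ellipsoids
-/

set_option autoImplicit false
set_option linter.unusedSectionVars false

open Set

namespace Pool.Agent.R892.CC

variable {n : ℕ}

/-- The coordinate `i` and the other coordinates. -/
noncomputable def splitL (i : Fin n) : (Fin n → ℂ) ≃ₗ[ℂ] ℂ × ({j : Fin n // j ≠ i} → ℂ) where
  toFun z := (z i, fun j => z j)
  invFun p j := if h : j = i then p.1 else p.2 ⟨j, h⟩
  map_add' _ _ := rfl
  map_smul' _ _ := rfl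
  left_inv := by
    intro z
    ext j
    by_cases h : j = i
    · simp [h]
    · simp [h]
  right_inv := by
    rintro ⟨w, y⟩
    ext j
    · simp
    · have := j.2
      simp [this]

/-- The coordinate `i` and the other coordinates. -/
noncomputable def splitC (i : Fin n) : (Fin n → ℂ) ≃L[ℂ] ℂ × ({j : Fin n // j ≠ i} → ℂ) :=
  (splitL i).toContinuousLinearEquiv

theorem splitC_apply (i : Fin n) (z : Fin n → ℂ) : splitC i z = (z i, fun j : {j : Fin n // j ≠ i} => z j) := rfl

theorem splitC_symm_apply (i : Fin n) (p : ℂ × ({j : Fin n // j ≠ i} → ℂ)) (j : Fin n) :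
    (splitC i).symm p j = if h : j = i then p.1 else p.2 ⟨j, h⟩ := rfl

theorem powQ_split (i : Fin n) (k : ℕ) (z : Fin n → ℂ) :
    powQ (splitC i) k z = Function.update z i (z i ^ k) := by
  ext j
  rw [powQ, splitC_symm_apply, splitC_apply]
  by_cases h : j = i
  · subst h
    simp
  · simp [h]

/-- The power map of the coordinates in `S`. -/
def powS (S : Finset (Fin n)) (k : Fin n → ℕ) (z : Fin n → ℂ) : Fin n → ℂ :=
  fun j => if j ∈ S then z j ^ k j else z j

theorem powS_empty (k : Fin n → ℕ) (z : Fin n → ℂ) : powS ∅ k z = z := by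
  ext j
  simp [powS]

theorem powS_univ (k : Fin n → ℕ) (z : Fin n → ℂ) : powS Finset.univ k z = fun j => z j ^ k j := by
  ext j
  simp [powS]

theorem powS_insert {S : Finset (Fin n)} {i : Fin n} (hi : i ∉ S) (k : Fin n → ℕ)
    (z : Fin n → ℂ) : powS (insert i S) k z = powS S k (powQ (splitC i) (k i) z) := by
  ext j
  rw [powQ_split, powS, powS]
  by_cases h : j = i
  · subst h
    simp [hi]
  · simp [h]

theorem isOpen_powS {D : Set (Fin n → ℂ)} (hD : IsOpen D) (S : Finset (Fin n)) (k : Fin n → ℕ) :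
    IsOpen {z | powS S k z ∈ D} := by
  refine hD.preimage ?_
  refine continuous_pi fun j => ?_
  by_cases h : j ∈ S
  · simp only [powS, h, if_true]
    fun_prop
  · simp only [powS, h, if_false]
    fun_prop

theorem cor_powS (k : Fin n → ℕ) (hk : ∀ j, k j ≠ 0) {D : Set (Fin n → ℂ)} (hD : IsOpen D)
    (S : Finset (Fin n)) : Cor D ↔ Cor {z | powS S k z ∈ D} := by
  classical
  induction S using Finset.induction_on with
  | empty => simp only [powS_empty, ofPred_mem_eq]
  | insert i S hi ih =>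
    rw [ih]
    have : NeZero (k i) := ⟨hk i⟩
    let _ : Fintype (rootsOfUnity (k i) ℂ) := Fintype.ofFinite _
    simp only [powS_insert hi]
    exact quot_cor (isQuot_pow (splitC i) (k i) (isOpen_powS hD S k) (hk i))

theorem coronaC_powS_down (k : Fin n → ℕ) (hk : ∀ j, k j ≠ 0) {D : Set (Fin n → ℂ)}
    (hD : IsOpen D) {N : ℕ} {δ C : ℝ} (S : Finset (Fin n))
    (hC : CoronaC {z | powS S k z ∈ D} N δ C) : CoronaC D N δ C := by
  classical
  induction S using Finset.induction_on with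
  | empty => simpa only [powS_empty, ofPred_mem_eq] using hC
  | insert i S hi ih =>
    refine ih ?_
    have : NeZero (k i) := ⟨hk i⟩
    let _ : Fintype (rootsOfUnity (k i) ℂ) := Fintype.ofFinite _
    simp only [powS_insert hi] at hC
    exact quot_down (isQuot_pow (splitC i) (k i) (isOpen_powS hD S k) (hk i)) hC

theorem coronaC_powS_up (k : Fin n → ℕ) (hk : ∀ j, k j ≠ 0) (S : Finset (Fin n)) :
    ∀ N : ℕ, ∃ c : ℝ, 0 < c ∧ ∀ (D : Set (Fin n → ℂ)), IsOpen D → ∀ δ C : ℝ, 0 < δ →
      CoronaC D ((∏ j ∈ S, k j) * (N - 1) + 1) (c * δ ^ (∏ j ∈ S, k j)) C →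
      CoronaC {z | powS S k z ∈ D} N δ C := by
  classical
  induction S using Finset.induction_on with
  | empty =>
    intro N
    refine ⟨1, one_pos, fun D _ δ C _ hC => ?_⟩
    simp only [powS_empty, ofPred_mem_eq]
    simp only [Finset.prod_empty, one_mul, pow_one] at hC
    rcases Nat.eq_zero_or_pos N with h0 | h0
    · subst h0
      intro f hf
      rcases D.eq_empty_or_nonempty with he | ⟨z, hz⟩
      · subst he
        exact ⟨f, fun j => j.elim0, fun z hz => hz.elim, fun z hz => hz.elim⟩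
      · have h1 := hf.gt z hz
        simp only [Finset.univ_eq_empty, Finset.sum_empty] at h1
        exact absurd h1 (not_lt.2 (sq_nonneg δ))
    · rwa [Nat.sub_add_cancel h0] at hC
  | insert i S hi ih =>
    intro N
    have : NeZero (k i) := ⟨hk i⟩
    let _ : Fintype (rootsOfUnity (k i) ℂ) := Fintype.ofFinite _
    obtain ⟨c1, hc1, h1⟩ := quot_up (rootsOfUnity (k i) ℂ) N
    rw [card_root (k i) (hk i)] at h1
    obtain ⟨c2, hc2, h2⟩ := ih (k i * (N - 1) + 1)
    refine ⟨c2 * c1 ^ (∏ j ∈ S, k j), by positivity, fun D hD δ C hδ hC => ?_⟩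
    simp only [powS_insert hi]
    refine h1 _ _ _ _ _ _ (isQuot_pow (splitC i) (k i) (isOpen_powS hD S k) (hk i)) δ C hδ ?_
    refine h2 D hD _ C (by positivity) ?_
    rw [Finset.prod_insert hi] at hC
    have h3 : (∏ j ∈ S, k j) * (k i * (N - 1) + 1 - 1) + 1 =
        k i * (∏ j ∈ S, k j) * (N - 1) + 1 := by
      rw [Nat.add_sub_cancel]
      ring
    have h4 : c2 * (c1 * δ ^ k i) ^ (∏ j ∈ S, k j) =
        c2 * c1 ^ (∏ j ∈ S, k j) * δ ^ (k i * ∏ j ∈ S, k j) := by
      rw [mul_pow, ← pow_mul]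
      ring
    rw [h3, h4]
    exact hC

/-- The complex ellipsoid with exponents `2 p_j`. -/
def Ell (p : Fin n → ℝ) : Set (Fin n → ℂ) := {z | ∑ j, ‖z j‖ ^ (2 * p j) < 1}

theorem isOpen_Ell {p : Fin n → ℝ} (hp : ∀ j, 0 < p j) : IsOpen (Ell p) := by
  refine isOpen_lt (continuous_finsetSum _ fun j _ => ?_) continuous_const
  refine Continuous.rpow_const (by fun_prop) fun z => Or.inr ?_
  have := hp j
  positivity

theorem pow_Ell (p : Fin n → ℝ) (k : Fin n → ℕ) :
    {z | powS Finset.univ k z ∈ Ell p} = Ell fun j => k j * p j := by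
  ext z
  simp only [powS_univ, Ell, mem_ofPred_eq]
  have h1 : ∀ j, ‖z j ^ k j‖ ^ (2 * p j) = ‖z j‖ ^ (2 * (k j * p j)) := by
    intro j
    rw [norm_pow, ← Real.rpow_natCast_mul (norm_nonneg _)]
    congr 1
    ring
  rw [Finset.sum_congr rfl fun j _ => h1 j]

theorem cor_Ell_mul {p : Fin n → ℝ} (hp : ∀ j, 0 < p j) {k : Fin n → ℕ} (hk : ∀ j, k j ≠ 0) :
    Cor (Ell p) ↔ Cor (Ell fun j => k j * p j) := by
  rw [cor_powS k hk (isOpen_Ell hp) Finset.univ, pow_Ell]

theorem cor_Ell {p q : Fin n → ℝ} (hp : ∀ j, 0 < p j) (hq : ∀ j, 0 < q j)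
    (hr : ∀ j, ∃ r : ℚ, p j = r * q j) : Cor (Ell p) ↔ Cor (Ell q) := by
  choose r hr using hr
  have hr0 : ∀ j, 0 < r j := by
    intro j
    have h1 := hr j
    have h2 : (0 : ℝ) < r j * q j := by rw [← h1]; exact hp j
    exact_mod_cast (pos_iff_pos_of_mul_pos h2).2 (hq j)
  have h1 : (fun j => ((r j).den : ℝ) * p j) = fun j => ((r j).num.toNat : ℝ) * q j := by
    funext j
    have h2 : ((r j).num.toNat : ℤ) = (r j).num := Int.toNat_of_nonneg (Rat.num_pos.2 (hr0 j)).le
    have h3 : ((r j).num.toNat : ℝ) = ((r j).num : ℝ) := by exact_mod_cast congrArg (Int.cast (R := ℝ)) h2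
    have h4 : ((r j).den : ℝ) * (r j : ℝ) = ((r j).num : ℝ) := by
      exact_mod_cast Rat.den_mul_eq_num (r j)
    rw [hr j, ← mul_assoc, h4, h3]
  rw [cor_Ell_mul hp (k := fun j => (r j).den) fun j => (r j).den_nz,
    cor_Ell_mul hq (k := fun j => (r j).num.toNat) fun j => ?_]
  · rw [h1]
  · have := Rat.num_pos.2 (hr0 j)
    omega

end Pool.Agent.R892.CC
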