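import Pool.Agent.R892.CC.T

/-!
# The corona problem and finite groups of holomorphic maps
-/

set_option autoImplicit false
set_option linter.unusedSectionVars false

open Finset Set

namespace Pool.Agent.R892.CC

/-- Corona data: `f_1, …, f_N` are holomorphic on `D` and `δ² < ∑ |f_j|² ≤ 1`. -/
structure Data {X : Type} [NormedAddCommGroup X] [NormedSpace ℂ X] (D : Set X) (N : ℕ) (δ : ℝ)
    (f : Fin N → X → ℂ) : Prop where
  hol : ∀ j, DifferentiableOn ℂ (f j) D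
  le : ∀ z ∈ D, ∑ j, ‖f j z‖ ^ 2 ≤ 1
  gt : ∀ z ∈ D, δ ^ 2 < ∑ j, ‖f j z‖ ^ 2

/-- `h_1, …, h_N` are holomorphic on `D`, `∑ f_j h_j = 1` and `∑ |h_j|² ≤ C²`. -/
structure Sol {X : Type} [NormedAddCommGroup X] [NormedSpace ℂ X] (D : Set X) {N : ℕ}
    (f h : Fin N → X → ℂ) (C : ℝ) : Prop where
  hol : ∀ j, DifferentiableOn ℂ (h j) D
  eq : ∀ z ∈ D, ∑ j, f j z * h j z = 1
  le : ∀ z ∈ D, ∑ j, ‖h j z‖ ^ 2 ≤ C ^ 2

/-- `f` is invariant on `D` under the maps `ρ g`. -/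
def Inv {X G : Type} [Group G] (ρ : G →* Equiv.Perm X) (D : Set X) (f : X → ℂ) : Prop :=
  ∀ g, ∀ z ∈ D, f (ρ g z) = f z

/-- The group acts on `D` by holomorphic maps. -/
structure Act {X G : Type} [NormedAddCommGroup X] [NormedSpace ℂ X] [Group G]
    (ρ : G →* Equiv.Perm X) (D : Set X) : Prop where
  maps : ∀ g, MapsTo (ρ g) D D
  hol : ∀ g, DifferentiableOn ℂ (ρ g) D

section transfer

variable {X : Type} [NormedAddCommGroup X] [NormedSpace ℂ X]

theorem Data.le_one {D : Set X} {N : ℕ} {δ : ℝ} {f : Fin N → X → ℂ} (hf : Data D N δ f) {z : X}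
    (hz : z ∈ D) (j : Fin N) : ‖f j z‖ ≤ 1 := by
  have h1 : ‖f j z‖ ^ 2 ≤ 1 := (Finset.single_le_sum (f := fun j => ‖f j z‖ ^ 2)
    (fun j _ => sq_nonneg _) (Finset.mem_univ j)).trans (hf.le z hz)
  nlinarith [norm_nonneg (f j z)]

theorem prod_diff {ι : Type} (t : Finset ι) {D : Set X} {L : ι → X → ℂ}
    (h : ∀ i, DifferentiableOn ℂ (L i) D) : DifferentiableOn ℂ (fun z => ∏ i ∈ t, L i z) D := by
  classical
  induction t using Finset.induction_on with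
  | empty => simp only [Finset.prod_empty]; exact differentiableOn_const _
  | insert a t ha ih =>
    simp only [Finset.prod_insert ha]
    exact (h a).mul ih

/-- Reduction of arbitrary data to invariant data. -/
theorem transfer (G : Type) [Group G] [Fintype G] (N : ℕ) : ∃ c : ℝ, 0 < c ∧
    ∀ (X : Type) [NormedAddCommGroup X] [NormedSpace ℂ X] (ρ : G →* Equiv.Perm X) (D : Set X),
      Act ρ D → ∀ δ : ℝ, 0 < δ → ∀ f : Fin N → X → ℂ, Data D N δ f →
      ∃ Φ : Fin (Fintype.card G * (N - 1) + 1) → X → ℂ,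
        Data D (Fintype.card G * (N - 1) + 1) (c * δ ^ Fintype.card G) Φ ∧
        (∀ i, Inv ρ D (Φ i)) ∧
        ∀ (H : Fin (Fintype.card G * (N - 1) + 1) → X → ℂ) (C : ℝ), Sol D Φ H C →
          ∃ h, Sol D f h C := by
  classical
  obtain ⟨M, hM⟩ : ∃ M, M = Fintype.card G * (N - 1) + 1 := ⟨_, rfl⟩
  rw [← hM]
  obtain ⟨c, hc, hc1, hgood⟩ := exists_good (ι := G) (N := N) (M := M) (by rw [hM]; omega)
  have hM0 : (0 : ℝ) < M := by rw [hM]; positivity
  obtain ⟨κ, hκ⟩ : ∃ κ : ℝ, κ = ((N : ℝ) + 1)⁻¹ := ⟨_, rfl⟩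
  obtain ⟨s, hs⟩ : ∃ s : ℝ, s = (Real.sqrt M)⁻¹ := ⟨_, rfl⟩
  have hN0 : (0 : ℝ) ≤ N := Nat.cast_nonneg N
  have hκ0 : 0 < κ := by rw [hκ]; positivity
  have hs0 : 0 < s := by rw [hs]; positivity
  have hs2 : s ^ 2 * M = 1 := by
    rw [hs, inv_pow, Real.sq_sqrt hM0.le, inv_mul_cancel₀ hM0.ne']
  have hκN : κ * N ≤ 1 := by
    rw [hκ, inv_mul_le_iff₀ (by positivity)]
    linarith
  have hκ1 : κ ≤ 1 := by
    rw [hκ]
    exact inv_le_one_of_one_le₀ (by linarith)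
  refine ⟨s * (κ * (c * κ)) ^ Fintype.card G, by positivity, ?_⟩
  intro X _ _ ρ D hA δ hδ f hf
  obtain ⟨L, hL⟩ : ∃ L : Fin M → X → ℂ, L = fun i z => (κ : ℂ) * ev i (fun j => f j z) := ⟨_, rfl⟩
  have hLhol : ∀ i, DifferentiableOn ℂ (L i) D := by
    intro i
    rw [hL]
    simp only [ev]
    refine DifferentiableOn.const_mul ?_ _
    refine DifferentiableOn.fun_sum fun j _ => ?_
    exact (hf.hol j).const_mul _
  have hLle : ∀ i, ∀ z ∈ D, ‖L i z‖ ≤ 1 := by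
    intro i z hz
    rw [hL]
    simp only
    rw [norm_mul, Complex.norm_real, Real.norm_of_nonneg hκ0.le]
    calc κ * ‖ev i fun j => f j z‖ ≤ κ * ∑ j : Fin N, ‖f j z‖ :=
          mul_le_mul_of_nonneg_left (ev_le _ _) hκ0.le
      _ ≤ κ * ∑ _j : Fin N, (1 : ℝ) := mul_le_mul_of_nonneg_left
          (Finset.sum_le_sum fun j _ => hf.le_one hz j) hκ0.le
      _ = κ * N := by simp
      _ ≤ 1 := hκN
  have hLg : ∀ i g, DifferentiableOn ℂ (fun z => L i (ρ g z)) D := fun i g =>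
    (hLhol i).comp (hA.hol g) (hA.maps g)
  obtain ⟨R, hR⟩ : ∃ R : Fin M → X → ℂ, R = fun i z => ∏ g ∈ univ.erase (1 : G), L i (ρ g z) :=
    ⟨_, rfl⟩
  have hRhol : ∀ i, DifferentiableOn ℂ (R i) D := by
    intro i
    rw [hR]
    exact prod_diff _ fun g => hLg i g
  have hRle : ∀ i, ∀ z ∈ D, ‖R i z‖ ≤ 1 := by
    intro i z hz
    rw [hR]
    simp only
    rw [norm_prod]
    exact Finset.prod_le_one (fun g _ => norm_nonneg _) fun g _ => hLle i _ (hA.maps g hz)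
  obtain ⟨Φ, hΦ⟩ : ∃ Φ : Fin M → X → ℂ, Φ = fun i z => (s : ℂ) * ∏ g : G, L i (ρ g z) := ⟨_, rfl⟩
  have hΦR : ∀ i z, Φ i z = (s : ℂ) * (L i z * R i z) := by
    intro i z
    rw [hΦ, hR]
    simp only
    rw [← Finset.mul_prod_erase univ _ (Finset.mem_univ (1 : G)), map_one]
    rfl
  have hΦn : ∀ i z, ‖Φ i z‖ = s * ∏ g : G, ‖L i (ρ g z)‖ := by
    intro i z
    rw [hΦ]
    simp only
    rw [norm_mul, norm_prod, Complex.norm_real, Real.norm_of_nonneg hs0.le]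
  refine ⟨Φ, ⟨?_, ?_, ?_⟩, ?_, ?_⟩
  · intro i
    rw [hΦ]
    exact (prod_diff _ fun g => hLg i g).const_mul _
  · intro z hz
    calc ∑ i, ‖Φ i z‖ ^ 2 ≤ ∑ _i : Fin M, s ^ 2 := by
          refine Finset.sum_le_sum fun i _ => ?_
          rw [hΦn]
          have h1 : ∏ g : G, ‖L i (ρ g z)‖ ≤ 1 :=
            Finset.prod_le_one (fun g _ => norm_nonneg _) fun g _ => hLle i _ (hA.maps g hz)
          have h0 : 0 ≤ ∏ g : G, ‖L i (ρ g z)‖ := Finset.prod_nonneg fun g _ => norm_nonneg _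
          have h2 : s * ∏ g : G, ‖L i (ρ g z)‖ ≤ s := mul_le_of_le_one_right hs0.le h1
          exact pow_le_pow_left₀ (by positivity) h2 2
      _ = s ^ 2 * M := by
          rw [Finset.sum_const, Finset.card_univ, Fintype.card_fin, nsmul_eq_mul]
          ring
      _ ≤ 1 := hs2.le
  · intro z hz
    obtain ⟨i, hi⟩ := hgood fun g j => f j (ρ g z)
    have hlow : ∀ g : G, κ * (c * κ) * δ < ‖L i (ρ g z)‖ := by
      intro g
      have hzg := hA.maps g hz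
      have h1 := hf.gt _ hzg
      obtain ⟨v, hv⟩ : ∃ v : Fin N → ℂ, v = fun j => f j (ρ g z) := ⟨_, rfl⟩
      have h2 : ∑ j, ‖f j (ρ g z)‖ ^ 2 ≤ N * ‖v‖ ^ 2 := by
        calc ∑ j, ‖f j (ρ g z)‖ ^ 2 ≤ ∑ _j : Fin N, ‖v‖ ^ 2 := by
              refine Finset.sum_le_sum fun j _ => ?_
              have h3 : ‖f j (ρ g z)‖ ≤ ‖v‖ := by
                have := norm_le_pi_norm v j
                rwa [hv] at this ⊢
              exact pow_le_pow_left₀ (norm_nonneg _) h3 2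
          _ = N * ‖v‖ ^ 2 := by
              rw [Finset.sum_const, Finset.card_univ, Fintype.card_fin, nsmul_eq_mul]
      have h4 : κ * δ < ‖v‖ := by
        by_contra hcon
        push Not at hcon
        have h5 : ‖v‖ ^ 2 ≤ (κ * δ) ^ 2 := pow_le_pow_left₀ (norm_nonneg _) hcon 2
        have h6 : (N : ℝ) * ‖v‖ ^ 2 ≤ N * (κ * δ) ^ 2 := mul_le_mul_of_nonneg_left h5 hN0
        have h7 : (N : ℝ) * (κ * δ) ^ 2 ≤ δ ^ 2 := by
          have h8 : (N : ℝ) * (κ * δ) ^ 2 = (κ * N) * (κ * δ ^ 2) := by ring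
          rw [h8]
          calc (κ * N) * (κ * δ ^ 2) ≤ 1 * (κ * δ ^ 2) :=
                mul_le_mul_of_nonneg_right hκN (by positivity)
            _ ≤ 1 * (1 * δ ^ 2) := by
                refine mul_le_mul_of_nonneg_left ?_ zero_le_one
                exact mul_le_mul_of_nonneg_right hκ1 (by positivity)
            _ = δ ^ 2 := by ring
        linarith
      have h9 := hi g
      rw [hL]
      simp only
      rw [norm_mul, Complex.norm_real, Real.norm_of_nonneg hκ0.le]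
      have h10 : c * (κ * δ) < c * ‖v‖ := mul_lt_mul_of_pos_left h4 hc
      rw [hv] at h10
      calc κ * (c * κ) * δ = κ * (c * (κ * δ)) := by ring
        _ < κ * (c * ‖fun j => f j (ρ g z)‖) := mul_lt_mul_of_pos_left h10 hκ0
        _ ≤ κ * ‖ev i fun j => f j (ρ g z)‖ := mul_le_mul_of_nonneg_left h9 hκ0.le
    have h1 : (κ * (c * κ) * δ) ^ Fintype.card G < ∏ g : G, ‖L i (ρ g z)‖ := by
      rw [← Finset.card_univ, ← Finset.prod_const]
      exact Finset.prod_lt_prod_of_nonempty (fun g _ => by positivity) (fun g _ => hlow g)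
        ⟨1, Finset.mem_univ _⟩
    have h2 : s * (κ * (c * κ)) ^ Fintype.card G * δ ^ Fintype.card G < ‖Φ i z‖ := by
      rw [hΦn, mul_assoc, ← mul_pow]
      exact mul_lt_mul_of_pos_left h1 hs0
    calc (s * (κ * (c * κ)) ^ Fintype.card G * δ ^ Fintype.card G) ^ 2 < ‖Φ i z‖ ^ 2 :=
          pow_lt_pow_left₀ h2 (by positivity) two_ne_zero
      _ ≤ ∑ i, ‖Φ i z‖ ^ 2 := Finset.single_le_sum (f := fun i => ‖Φ i z‖ ^ 2)
          (fun i _ => sq_nonneg _) (Finset.mem_univ i)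
  · intro i g z hz
    rw [hΦ]
    simp only
    congr 1
    rw [← Equiv.prod_comp (Equiv.mulRight g) fun g' => L i (ρ g' z)]
    refine Finset.prod_congr rfl fun g' _ => ?_
    rw [Equiv.coe_mulRight, map_mul]
    rfl
  · intro H C hH
    refine ⟨fun j z => ∑ i, (s * κ : ℂ) * pt i ^ (j : ℕ) * (R i z * H i z), ?_, ?_, ?_⟩
    · intro j
      refine DifferentiableOn.fun_sum fun i _ => ?_
      exact ((hRhol i).mul (hH.hol i)).const_mul _
    · intro z hz
      rw [← hH.eq z hz]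
      have h1 : ∀ j, f j z * ∑ i, (s * κ : ℂ) * pt i ^ (j : ℕ) * (R i z * H i z) =
          ∑ i, (s * κ : ℂ) * (pt i ^ (j : ℕ) * f j z) * (R i z * H i z) := by
        intro j
        rw [Finset.mul_sum]
        refine Finset.sum_congr rfl fun i _ => ?_
        ring
      rw [Finset.sum_congr rfl fun j _ => h1 j, Finset.sum_comm]
      refine Finset.sum_congr rfl fun i _ => ?_
      rw [hΦR, hL]
      simp only [ev]
      rw [← Finset.sum_mul, ← Finset.mul_sum]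
      ring
    · intro z hz
      have hS : (∑ i, s * ‖H i z‖) ^ 2 ≤ C ^ 2 := by
        calc (∑ i, s * ‖H i z‖) ^ 2 ≤ (∑ _i : Fin M, s ^ 2) * ∑ i, ‖H i z‖ ^ 2 :=
              Finset.sum_mul_sq_le_sq_mul_sq _ _ _
          _ = ∑ i, ‖H i z‖ ^ 2 := by
              rw [Finset.sum_const, Finset.card_univ, Fintype.card_fin, nsmul_eq_mul]
              have : (M : ℝ) * s ^ 2 = 1 := by rw [mul_comm]; exact hs2
              rw [this, one_mul]
          _ ≤ C ^ 2 := hH.le z hz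
      have hj : ∀ j : Fin N, ‖∑ i, (s * κ : ℂ) * pt i ^ (j : ℕ) * (R i z * H i z)‖ ≤
          κ * ∑ i, s * ‖H i z‖ := by
        intro j
        rw [Finset.mul_sum]
        refine (norm_sum_le _ _).trans (Finset.sum_le_sum fun i _ => ?_)
        rw [norm_mul, norm_mul, norm_mul, norm_mul, norm_pow, Complex.norm_real, Complex.norm_real,
          Real.norm_of_nonneg hs0.le, Real.norm_of_nonneg hκ0.le]
        have h1 : ‖pt i‖ ^ (j : ℕ) ≤ 1 := pow_le_one₀ (norm_nonneg _) (pt_le i)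
        have h2 : ‖R i z‖ * ‖H i z‖ ≤ 1 * ‖H i z‖ :=
          mul_le_mul_of_nonneg_right (hRle i z hz) (norm_nonneg _)
        calc s * κ * ‖pt i‖ ^ (j : ℕ) * (‖R i z‖ * ‖H i z‖) ≤ s * κ * 1 * (1 * ‖H i z‖) := by
              refine mul_le_mul ?_ h2 (by positivity) (by positivity)
              exact mul_le_mul_of_nonneg_left h1 (by positivity)
          _ = κ * (s * ‖H i z‖) := by ring
      have hS0 : 0 ≤ ∑ i, s * ‖H i z‖ := Finset.sum_nonneg fun i _ => by positivity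
      calc ∑ j : Fin N, ‖∑ i, (s * κ : ℂ) * pt i ^ (j : ℕ) * (R i z * H i z)‖ ^ 2 ≤
            ∑ _j : Fin N, (κ * ∑ i, s * ‖H i z‖) ^ 2 := by
            refine Finset.sum_le_sum fun j _ => ?_
            exact pow_le_pow_left₀ (norm_nonneg _) (hj j) 2
        _ = (κ * N) * (κ * (∑ i, s * ‖H i z‖) ^ 2) := by
            rw [Finset.sum_const, Finset.card_univ, Fintype.card_fin, nsmul_eq_mul]
            ring
        _ ≤ 1 * (1 * (∑ i, s * ‖H i z‖) ^ 2) := by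
            refine mul_le_mul hκN ?_ (by positivity) zero_le_one
            exact mul_le_mul_of_nonneg_right hκ1 (by positivity)
        _ ≤ C ^ 2 := by rw [one_mul, one_mul]; exact hS

/-- Averaging of a solution for invariant data. -/
theorem average {G : Type} [Group G] [Fintype G] {ρ : G →* Equiv.Perm X} {D : Set X} (hA : Act ρ D)
    {N : ℕ} {f h : Fin N → X → ℂ} {C : ℝ} (hf : ∀ j, Inv ρ D (f j)) (hh : Sol D f h C) :
    ∃ h' : Fin N → X → ℂ, Sol D f h' C ∧ ∀ j, Inv ρ D (h' j) := by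
  classical
  obtain ⟨m, hm⟩ : ∃ m : ℝ, m = Fintype.card G := ⟨_, rfl⟩
  have hm0 : 0 < m := by rw [hm]; exact_mod_cast Fintype.card_pos
  have hmc : (m : ℂ) ≠ 0 := by exact_mod_cast hm0.ne'
  have hcard : ((Finset.univ : Finset G).card : ℝ) = m := by rw [hm, Finset.card_univ]
  refine ⟨fun j z => (m : ℂ)⁻¹ * ∑ g : G, h j (ρ g z), ⟨?_, ?_, ?_⟩, ?_⟩
  · intro j
    refine DifferentiableOn.const_mul ?_ _
    exact DifferentiableOn.fun_sum fun g _ => (hh.hol j).comp (hA.hol g) (hA.maps g)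
  · intro z hz
    have h1 : ∀ j, f j z * ((m : ℂ)⁻¹ * ∑ g : G, h j (ρ g z)) =
        (m : ℂ)⁻¹ * ∑ g : G, f j (ρ g z) * h j (ρ g z) := by
      intro j
      have h2 : ∀ g : G, f j (ρ g z) * h j (ρ g z) = f j z * h j (ρ g z) := fun g => by
        rw [hf j g z hz]
      rw [Finset.sum_congr rfl fun g _ => h2 g, ← Finset.mul_sum]
      ring
    rw [Finset.sum_congr rfl fun j _ => h1 j, ← Finset.mul_sum, Finset.sum_comm]
    have h3 : ∀ g : G, ∑ j, f j (ρ g z) * h j (ρ g z) = 1 := fun g => hh.eq _ (hA.maps g hz)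
    rw [Finset.sum_congr rfl fun g _ => h3 g, Finset.sum_const, nsmul_eq_mul, mul_one]
    have h4 : ((Finset.univ : Finset G).card : ℂ) = (m : ℂ) := by exact_mod_cast hcard
    rw [h4, inv_mul_cancel₀ hmc]
  · intro z hz
    have h1 : ∀ j, ‖(m : ℂ)⁻¹ * ∑ g : G, h j (ρ g z)‖ ^ 2 ≤ m⁻¹ * ∑ g : G, ‖h j (ρ g z)‖ ^ 2 := by
      intro j
      rw [norm_mul, norm_inv, Complex.norm_real, Real.norm_of_nonneg hm0.le, mul_pow]
      have h2 : ‖∑ g : G, h j (ρ g z)‖ ^ 2 ≤ m * ∑ g : G, ‖h j (ρ g z)‖ ^ 2 := by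
        calc ‖∑ g : G, h j (ρ g z)‖ ^ 2 ≤ (∑ g : G, ‖h j (ρ g z)‖) ^ 2 :=
              pow_le_pow_left₀ (norm_nonneg _) (norm_sum_le _ _) 2
          _ = (∑ g : G, 1 * ‖h j (ρ g z)‖) ^ 2 := by simp
          _ ≤ (∑ _g : G, (1 : ℝ) ^ 2) * ∑ g : G, ‖h j (ρ g z)‖ ^ 2 :=
              Finset.sum_mul_sq_le_sq_mul_sq _ _ _
          _ = m * ∑ g : G, ‖h j (ρ g z)‖ ^ 2 := by
              rw [one_pow, Finset.sum_const, nsmul_eq_mul, mul_one, hcard]
      calc m⁻¹ ^ 2 * ‖∑ g : G, h j (ρ g z)‖ ^ 2 ≤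
            m⁻¹ ^ 2 * (m * ∑ g : G, ‖h j (ρ g z)‖ ^ 2) :=
            mul_le_mul_of_nonneg_left h2 (by positivity)
        _ = m⁻¹ * ∑ g : G, ‖h j (ρ g z)‖ ^ 2 := by field_simp
    calc ∑ j, ‖(m : ℂ)⁻¹ * ∑ g : G, h j (ρ g z)‖ ^ 2 ≤
          ∑ j, m⁻¹ * ∑ g : G, ‖h j (ρ g z)‖ ^ 2 := Finset.sum_le_sum fun j _ => h1 j
      _ = m⁻¹ * ∑ g : G, ∑ j, ‖h j (ρ g z)‖ ^ 2 := by rw [← Finset.mul_sum, Finset.sum_comm]
      _ ≤ m⁻¹ * ∑ _g : G, C ^ 2 := by
          refine mul_le_mul_of_nonneg_left ?_ (by positivity)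
          exact Finset.sum_le_sum fun g _ => hh.le _ (hA.maps g hz)
      _ = C ^ 2 := by
          rw [Finset.sum_const, nsmul_eq_mul, hcard]
          field_simp
  · intro j g z hz
    show (m : ℂ)⁻¹ * ∑ g' : G, h j (ρ g' (ρ g z)) = (m : ℂ)⁻¹ * ∑ g' : G, h j (ρ g' z)
    congr 1
    rw [← Equiv.sum_comp (Equiv.mulRight g) fun g' => h j (ρ g' z)]
    refine Finset.sum_congr rfl fun g' _ => ?_
    rw [Equiv.coe_mulRight, map_mul]
    rfl

end transfer

end Pool.Agent.R892.CC
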