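import Pool.Agent.R892.CC.Quot
import Pool.Agent.HopfPinch.AnS1

/-!
# Power maps of one coordinate
-/

set_option autoImplicit false
set_option linter.unusedSectionVars false

open MeasureTheory Metric Set Filter Topology Complex

namespace Pool.Agent.R892.CC

variable {E : Type} [NormedAddCommGroup E] [NormedSpace ℂ E] [FiniteDimensional ℂ E]

theorem osgood2 {D : Set (ℂ × E)} (hD : IsOpen D) {u : ℂ × E → ℂ} {C : ℝ} (hb : ∀ p ∈ D, ‖u p‖ ≤ C)
    (h1 : ∀ y : E, DifferentiableOn ℂ (fun w => u (w, y)) {w : ℂ | (w, y) ∈ D})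
    (h2 : ∀ w : ℂ, DifferentiableOn ℂ (fun y : E => u (w, y)) {y | (w, y) ∈ D}) :
    DifferentiableOn ℂ u (D) := by
  rintro ⟨w0, y0⟩ hp0
  apply DifferentiableAt.differentiableWithinAt
  obtain ⟨ε, hε, hB⟩ := Metric.isOpen_iff.1 hD _ hp0
  set r := ε / 2 with hr
  have hr0 : 0 < r := by positivity
  have hsub : ∀ w ∈ closedBall w0 r, ∀ y ∈ ball y0 r, (w, y) ∈ D := by
    intro w hw y hy
    refine hB ?_
    rw [mem_ball, Prod.dist_eq]
    rw [mem_closedBall] at hw
    rw [mem_ball] at hy
    simp only [max_lt_iff]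
    constructor <;> linarith
  set O : Set (ℂ × E) := ball w0 (r / 2) ×ˢ ball y0 r with hO
  have hOo : IsOpen O := isOpen_ball.prod isOpen_ball
  have hcm : ∀ θ, circleMap w0 r θ ∈ closedBall w0 r := fun θ => circleMap_mem_closedBall _ hr0.le θ
  have hC0 : 0 ≤ C := (norm_nonneg _).trans (hb _ hp0)
  have hsep : ∀ θ, ∀ w ∈ ball w0 (r / 2), r / 2 ≤ ‖circleMap w0 r θ - w‖ := by
    intro θ w hw
    have h3 : ‖circleMap w0 r θ - w0‖ = r := by
      simp [circleMap_sub_center, abs_of_pos hr0]
    rw [mem_ball, dist_eq_norm] at hw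
    have h4 := norm_sub_le (circleMap w0 r θ - w) (w0 - w)
    rw [sub_sub_sub_cancel_right, h3] at h4
    rw [norm_sub_rev w0 w] at h4
    linarith
  have hrep : ∀ p ∈ O, u p = (2 * Real.pi * I : ℂ)⁻¹ • ∫ θ in Ioc (0 : ℝ) (2 * Real.pi),
      deriv (circleMap w0 r) θ * ((circleMap w0 r θ - p.1)⁻¹ * u (circleMap w0 r θ, p.2)) := by
    rintro ⟨w, y⟩ ⟨hw, hy⟩
    have hd : DifferentiableOn ℂ (fun w => u (w, y)) (closedBall w0 r) := by
      intro z hz
      have h3 : z ∈ {w : ℂ | (w, y) ∈ D} := hsub z hz y hy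
      exact ((h1 y z h3).differentiableAt ((hD.preimage (by fun_prop : Continuous fun w : ℂ => (w, y))).mem_nhds h3)).differentiableWithinAt
    have hdc : DiffContOnCl ℂ (fun w => u (w, y)) (ball w0 r) := by
      refine DifferentiableOn.diffContOnCl ?_
      rw [closure_ball _ hr0.ne']
      exact hd
    have h4 := hdc.two_pi_i_inv_smul_circleIntegral_sub_inv_smul
      (ball_subset_ball (by linarith : r / 2 ≤ r) hw)
    simp only at h4 ⊢
    rw [← h4, circleIntegral, intervalIntegral.integral_of_le (by positivity)]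
    simp only [smul_eq_mul]
  have hint : DifferentiableOn ℂ (fun p : ℂ × E => ∫ θ in Ioc (0 : ℝ) (2 * Real.pi),
      deriv (circleMap w0 r) θ * ((circleMap w0 r θ - p.1)⁻¹ * u (circleMap w0 r θ, p.2))) O := by
    refine Pool.Agent.HP.differentiableOn_integral (X := ℂ × E) (E := ℂ) _ _ O hOo ?_ ?_
      (fun _ => r * ((r / 2)⁻¹ * C)) ?_ ?_
    · rintro ⟨w, y⟩ ⟨hw, hy⟩
      apply Continuous.aestronglyMeasurable
      have hc1 : Continuous (fun θ => u (circleMap w0 r θ, y)) := by
        rw [continuous_iff_continuousAt]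
        intro θ
        have h3 : circleMap w0 r θ ∈ {w : ℂ | (w, y) ∈ D} := hsub _ (hcm θ) y hy
        have h4 : ContinuousAt (fun w => u (w, y)) (circleMap w0 r θ) :=
          ((h1 y _ h3).differentiableAt ((hD.preimage (by fun_prop : Continuous fun w : ℂ => (w, y))).mem_nhds h3)).continuousAt
        exact ContinuousAt.comp (f := fun θ => circleMap w0 r θ) (g := fun w => u (w, y)) h4
          (continuous_circleMap w0 r).continuousAt
      have hc2 : Continuous (fun θ => (circleMap w0 r θ - w)⁻¹) := by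
        refine Continuous.inv₀ ((continuous_circleMap w0 r).sub continuous_const) (fun θ => ?_)
        have := hsep θ w hw
        exact norm_pos_iff.1 (by linarith)
      have hc3 : Continuous (fun θ => deriv (circleMap w0 r) θ) := by
        simp only [deriv_circleMap]
        exact (continuous_circleMap 0 r).mul continuous_const
      exact hc3.mul (hc2.mul hc1)
    · intro θ
      have hd1 : DifferentiableOn ℂ (fun p : ℂ × E => u (circleMap w0 r θ, p.2)) O := by
        refine (h2 (circleMap w0 r θ)).comp differentiableOn_snd (fun p hp => ?_)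
        exact hsub _ (hcm θ) _ hp.2
      have hd2 : DifferentiableOn ℂ (fun p : ℂ × E => (circleMap w0 r θ - p.1)⁻¹) O := by
        intro p hp
        refine (DifferentiableAt.fun_inv ((differentiableAt_const _).fun_sub differentiableAt_fst)
          ?_).differentiableWithinAt
        have := hsep θ p.1 hp.1
        exact norm_pos_iff.1 (by linarith)
      exact (hd2.fun_mul hd1).const_mul _
    · exact integrableOn_const measure_Ioc_lt_top.ne enorm_ne_top
    · rintro θ ⟨w, y⟩ ⟨hw, hy⟩
      rw [norm_mul, norm_mul, norm_inv]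
      have h3 : ‖deriv (circleMap w0 r) θ‖ = r := by
        simp [deriv_circleMap, abs_of_pos hr0]
      rw [h3]
      have h4 := hsep θ w hw
      have h5 := hb _ (hsub _ (hcm θ) y hy)
      gcongr
  have hfin : DifferentiableOn ℂ u O :=
    (hint.const_smul (2 * Real.pi * I : ℂ)⁻¹).congr (fun p hp => hrep p hp)
  exact hfin.differentiableAt (hOo.mem_nhds ⟨mem_ball_self (by positivity), mem_ball_self hr0⟩)

/-- Descent of invariant functions along `(w, y) ↦ (w ^ k, y)`. -/
theorem desc_pow {D : Set (ℂ × E)} (hD : IsOpen D) {k : ℕ} (hk : k ≠ 0) {F : ℂ × E → ℂ}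
    (hF : DifferentiableOn ℂ F {p | (p.1 ^ k, p.2) ∈ D}) {M : ℝ}
    (hM : ∀ p : ℂ × E, (p.1 ^ k, p.2) ∈ D → ‖F p‖ ≤ M)
    (hi : ∀ ζ : ℂ, ζ ^ k = 1 → ∀ p : ℂ × E, (p.1 ^ k, p.2) ∈ D → F (ζ * p.1, p.2) = F p) :
    ∃ f : ℂ × E → ℂ, DifferentiableOn ℂ f D ∧
      ∀ p : ℂ × E, (p.1 ^ k, p.2) ∈ D → f (p.1 ^ k, p.2) = F p := by
  have hDo : IsOpen {p : ℂ × E | (p.1 ^ k, p.2) ∈ D} := hD.preimage (by fun_prop)
  have hroot : ∀ w : ℂ, (w ^ ((k : ℂ)⁻¹)) ^ k = w := fun w => cpow_nat_inv_pow w hk
  have key : ∀ (a b : ℂ) (y : E), a ^ k = b ^ k → (b ^ k, y) ∈ D → F (a, y) = F (b, y) := by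
    intro a b y hab hy
    rcases eq_or_ne b 0 with hb | hb
    · rw [hb, zero_pow hk] at hab
      rw [hb, eq_zero_of_pow_eq_zero hab]
    · have h1 : (a / b) ^ k = 1 := by rw [div_pow, hab, div_self (pow_ne_zero k hb)]
      have h2 := hi (a / b) h1 (b, y) hy
      simp only [div_mul_cancel₀ a hb] at h2
      exact h2
  refine ⟨fun p => F (p.1 ^ ((k : ℂ)⁻¹), p.2), ?_, ?_⟩
  · refine osgood2 hD (C := M) (fun p hp => hM _ (by simp only [hroot]; exact hp)) ?_ ?_
    · intro y
      have hS : IsOpen {w : ℂ | (w, y) ∈ D} :=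
        hD.preimage (by fun_prop : Continuous fun w : ℂ => (w, y))
      have hne : ∀ w0 : ℂ, (w0, y) ∈ D → w0 ≠ 0 →
          DifferentiableAt ℂ (fun w : ℂ => F (w ^ ((k : ℂ)⁻¹), y)) w0 := by
        intro w0 hw0 hw00
        obtain ⟨z0, hz0⟩ : ∃ z0 : ℂ, z0 = w0 ^ ((k : ℂ)⁻¹) := ⟨_, rfl⟩
        have hz0k : z0 ^ k = w0 := by rw [hz0]; exact hroot w0
        have hg1 : ∀ w : ℂ, (z0 * (w / w0) ^ ((k : ℂ)⁻¹)) ^ k = w := by
          intro w
          rw [mul_pow, hroot, hz0k, mul_div_cancel₀ w hw00]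
        have hg0 : z0 * (w0 / w0) ^ ((k : ℂ)⁻¹) = z0 := by
          rw [div_self hw00, one_cpow, mul_one]
        have hgd : DifferentiableAt ℂ (fun w : ℂ => z0 * (w / w0) ^ ((k : ℂ)⁻¹)) w0 := by
          refine DifferentiableAt.const_mul ?_ _
          refine DifferentiableAt.cpow (differentiableAt_id.div_const w0)
            (differentiableAt_const _) ?_
          show w0 / w0 ∈ slitPlane
          rw [div_self hw00]
          exact one_mem_slitPlane
        have hFd : DifferentiableAt ℂ F (z0 * (w0 / w0) ^ ((k : ℂ)⁻¹), y) := by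
          rw [hg0]
          refine hF.differentiableAt (hDo.mem_nhds ?_)
          show (z0 ^ k, y) ∈ D
          rw [hz0k]
          exact hw0
        have hcd : DifferentiableAt ℂ (fun w : ℂ => F (z0 * (w / w0) ^ ((k : ℂ)⁻¹), y)) w0 :=
          DifferentiableAt.comp (g := F) w0 hFd (hgd.prodMk (differentiableAt_const y))
        refine hcd.congr_of_eventuallyEq ?_
        filter_upwards [hS.mem_nhds hw0] with w hw
        refine key _ _ y ?_ ?_
        · rw [hroot, hg1]
        · rw [hg1]
          exact hw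
      by_cases h0 : (0, y) ∈ D
      · refine (differentiableOn_compl_singleton_and_continuousAt_iff
          (hS.mem_nhds h0 : {w : ℂ | (w, y) ∈ D} ∈ 𝓝 (0 : ℂ))).1 ⟨?_, ?_⟩
        · intro w hw
          exact (hne w hw.1 hw.2).differentiableWithinAt
        · have hc : ContinuousAt (fun w : ℂ => w ^ ((k : ℂ)⁻¹)) 0 := by
            refine continuousAt_cpow_const_of_re_pos (Or.inl le_rfl) ?_
            have h2 : ((k : ℂ)⁻¹) = (((k : ℝ)⁻¹ : ℝ) : ℂ) := by push_cast; rfl
            rw [h2, ofReal_re]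
            have hk0 : (0 : ℝ) < k := by exact_mod_cast Nat.pos_of_ne_zero hk
            positivity
          have hFc : ContinuousAt F ((0 : ℂ) ^ ((k : ℂ)⁻¹), y) := by
            refine (hF.differentiableAt (hDo.mem_nhds ?_)).continuousAt
            show (((0 : ℂ) ^ ((k : ℂ)⁻¹)) ^ k, y) ∈ D
            rw [hroot]
            exact h0
          exact ContinuousAt.comp (g := F) (f := fun w : ℂ => (w ^ ((k : ℂ)⁻¹), y)) hFc
            (hc.prodMk continuousAt_const)
      · intro w hw
        refine (hne w hw ?_).differentiableWithinAt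
        rintro rfl
        exact h0 hw
    · intro w
      refine hF.comp (f := fun y : E => (w ^ ((k : ℂ)⁻¹), y)) ?_ ?_
      · exact ((differentiable_const _).prodMk differentiable_id).differentiableOn
      · intro y hy
        show ((w ^ ((k : ℂ)⁻¹)) ^ k, y) ∈ D
        rw [hroot]
        exact hy
  · intro p hp
    show F ((p.1 ^ k) ^ ((k : ℂ)⁻¹), p.2) = F p
    exact key _ _ _ (hroot _) hp

section

variable {X : Type} [NormedAddCommGroup X] [NormedSpace ℂ X] (L : X ≃L[ℂ] ℂ × E) (k : ℕ)

/-- The `k`-th power map of the first coordinate of `L`. -/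
noncomputable def powQ (x : X) : X := L.symm ((L x).1 ^ k, (L x).2)

/-- The `k`-th roots of unity act by multiplication on the first coordinate of `L`. -/
noncomputable def rot : rootsOfUnity k ℂ →* Equiv.Perm X where
  toFun g :=
    { toFun := fun x => L.symm (((g : ℂˣ) : ℂ) * (L x).1, (L x).2)
      invFun := fun x => L.symm ((((g⁻¹ : rootsOfUnity k ℂ) : ℂˣ) : ℂ) * (L x).1, (L x).2)
      left_inv := by
        intro x
        simp
      right_inv := by
        intro x
        simp }
  map_one' := by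
    ext x
    simp
  map_mul' := by
    intro g h
    ext x
    simp [mul_assoc]

theorem rot_apply (g : rootsOfUnity k ℂ) (x : X) :
    rot L k g x = L.symm (((g : ℂˣ) : ℂ) * (L x).1, (L x).2) := rfl

theorem root_pow (g : rootsOfUnity k ℂ) : ((g : ℂˣ) : ℂ) ^ k = 1 := by
  have h := g.2
  rw [_root_.mem_rootsOfUnity] at h
  rw [← Units.val_pow_eq_pow_val, h, Units.val_one]

theorem powQ_rot (g : rootsOfUnity k ℂ) (x : X) : powQ L k (rot L k g x) = powQ L k x := by
  rw [powQ, powQ, rot_apply, ContinuousLinearEquiv.apply_symm_apply]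
  simp only
  rw [mul_pow, root_pow, one_mul]

theorem isQuot_pow {D : Set X} (hD : IsOpen D) (hk : k ≠ 0) :
    IsQuot (rot L k) {x | powQ L k x ∈ D} D (powQ L k) := by
  have hdL : Differentiable ℂ L := L.differentiable
  have hdS : Differentiable ℂ L.symm := L.symm.differentiable
  refine ⟨⟨?_, ?_⟩, ?_, ?_, ?_, ?_, ?_⟩
  · intro g x hx
    show powQ L k (rot L k g x) ∈ D
    rw [powQ_rot]
    exact hx
  · intro g
    refine Differentiable.differentiableOn ?_
    show Differentiable ℂ fun x => L.symm (((g : ℂˣ) : ℂ) * (L x).1, (L x).2)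
    exact hdS.comp ((hdL.fst.const_mul _).prodMk hdL.snd)
  · intro x hx
    exact hx
  · intro w hw
    refine ⟨L.symm ((L w).1 ^ ((k : ℂ)⁻¹), (L w).2), ?_, ?_⟩
    · show powQ L k _ ∈ D
      rw [powQ, ContinuousLinearEquiv.apply_symm_apply]
      simp only
      rw [cpow_nat_inv_pow _ hk, Prod.mk.eta, ContinuousLinearEquiv.symm_apply_apply]
      exact hw
    · rw [powQ, ContinuousLinearEquiv.apply_symm_apply]
      simp only
      rw [cpow_nat_inv_pow _ hk, Prod.mk.eta, ContinuousLinearEquiv.symm_apply_apply]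
  · refine Differentiable.differentiableOn ?_
    show Differentiable ℂ fun x => L.symm ((L x).1 ^ k, (L x).2)
    exact hdS.comp ((hdL.fst.pow k).prodMk hdL.snd)
  · intro g x _
    exact powQ_rot L k g x
  · intro F hF hM hFi
    obtain ⟨M, hM⟩ := hM
    have hD1 : IsOpen {p : ℂ × E | L.symm p ∈ D} := hD.preimage L.symm.continuous
    have hmem : ∀ p : ℂ × E, (p.1 ^ k, p.2) ∈ {p : ℂ × E | L.symm p ∈ D} →
        L.symm p ∈ {x | powQ L k x ∈ D} := by
      intro p hp
      show powQ L k (L.symm p) ∈ D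
      rw [powQ, ContinuousLinearEquiv.apply_symm_apply]
      exact hp
    obtain ⟨f, hf1, hf2⟩ := desc_pow hD1 hk (F := fun p => F (L.symm p)) (M := M)
      (hF.comp hdS.differentiableOn fun p hp => hmem p hp)
      (fun p hp => hM _ (hmem p hp)) (by
        intro ζ hζ p hp
        have h1 : IsUnit ζ := by
          refine IsUnit.mk0 ζ ?_
          rintro rfl
          rw [zero_pow hk] at hζ
          exact zero_ne_one hζ
        obtain ⟨u, hu⟩ := h1
        have h2 : u ∈ rootsOfUnity k ℂ := by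
          rw [_root_.mem_rootsOfUnity]
          ext
          rw [Units.val_pow_eq_pow_val, hu, hζ, Units.val_one]
        have h3 := hFi ⟨u, h2⟩ _ (hmem p hp)
        rw [rot_apply, ContinuousLinearEquiv.apply_symm_apply] at h3
        simp only [hu] at h3
        exact h3)
    refine ⟨fun x => f (L x), hf1.comp hdL.differentiableOn fun x hx => ?_, fun x hx => ?_⟩
    · show L.symm (L x) ∈ D
      rw [ContinuousLinearEquiv.symm_apply_apply]
      exact hx
    · have h4 := hf2 (L x) hx
      rw [ContinuousLinearEquiv.symm_apply_apply] at h4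
      rw [← h4]
      simp only [powQ, ContinuousLinearEquiv.apply_symm_apply]

theorem isOpen_powQ {D : Set X} (hD : IsOpen D) : IsOpen {x | powQ L k x ∈ D} := by
  refine hD.preimage ?_
  show Continuous fun x => L.symm ((L x).1 ^ k, (L x).2)
  have hdL := L.continuous
  exact L.symm.continuous.comp ((hdL.fst.pow k).prodMk hdL.snd)

theorem card_root (hk : k ≠ 0) [Fintype (rootsOfUnity k ℂ)] :
    Fintype.card (rootsOfUnity k ℂ) = k := by
  have : NeZero k := ⟨hk⟩
  rw [Fintype.card_eq_nat_card, Complex.card_rootsOfUnity]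

end

end Pool.Agent.R892.CC
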