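import Pool.Agent.R892.CC.Grp

/-!
# Elementary symmetric functions of the values on the fibres of a finite covering
-/

set_option autoImplicit false
set_option linter.unusedSectionVars false

open Finset

namespace Pool.Agent.R892.CC

variable {m : ℕ}

/-- The elementary symmetric function. -/
def es (r : ℕ) (x : Fin m → ℂ) : ℂ := ∑ t ∈ powersetCard r univ, ∏ i ∈ t, x i

theorem es_eq (r : ℕ) (x : Fin m → ℂ) :
    MvPolynomial.aeval x (MvPolynomial.esymm (Fin m) ℂ r) = es r x := by
  rw [es, MvPolynomial.esymm, map_sum]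
  refine Finset.sum_congr rfl fun t _ => ?_
  rw [map_prod]
  exact Finset.prod_congr rfl fun i _ => MvPolynomial.aeval_X _ _

theorem es_newton (r : ℕ) (x : Fin m → ℂ) : (r : ℂ) * es r x = (-1) ^ (r + 1) *
    ∑ a ∈ antidiagonal r with a.1 < r, (-1) ^ a.1 * es a.1 x * ∑ i, x i ^ a.2 := by
  have h := congrArg (MvPolynomial.aeval x) (MvPolynomial.mul_esymm_eq_sum (Fin m) ℂ r)
  simp only [map_mul, map_natCast, map_pow, map_neg, map_one, map_sum, es_eq, MvPolynomial.psum,
    MvPolynomial.aeval_X] at h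
  exact h

theorem es_top (x : Fin m → ℂ) : es m x = ∏ i, x i := by
  have h : powersetCard m (univ : Finset (Fin m)) = {univ} := by
    have h1 := powersetCard_self (univ : Finset (Fin m))
    rwa [card_univ, Fintype.card_fin] at h1
  rw [es, h, sum_singleton]

theorem es_sum (x : Fin m → ℂ) (t : ℂ) :
    ∏ i, (x i + t) = ∑ j ∈ range (m + 1), es j x * t ^ (m - j) := by
  classical
  rw [Finset.prod_add, Finset.sum_powerset, card_univ, Fintype.card_fin]
  refine Finset.sum_congr rfl fun j _ => ?_
  rw [es, Finset.sum_mul]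
  refine Finset.sum_congr rfl fun s hs => ?_
  rw [mem_powersetCard] at hs
  rw [Finset.prod_const, Finset.card_sdiff_of_subset hs.1, hs.2, card_univ, Fintype.card_fin]

/-- The product of the other values. -/
def cof (x : Fin m → ℂ) (a : ℂ) : ℂ := ∑ j ∈ range m, es j x * (-a) ^ (m - 1 - j)

theorem prod_cof (x : Fin m → ℂ) (i : Fin m) : ∏ j, x j = x i * cof x (x i) := by
  have h := es_sum x (-(x i))
  rw [Finset.prod_eq_zero (Finset.mem_univ i) (by ring), Finset.sum_range_succ, Nat.sub_self,
    pow_zero, mul_one, es_top] at h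
  have h2 : ∑ j ∈ range m, es j x * (-(x i)) ^ (m - j) = -(x i) * cof x (x i) := by
    rw [cof, Finset.mul_sum]
    refine Finset.sum_congr rfl fun j hj => ?_
    have h3 : m - j = (m - 1 - j) + 1 := by
      have := Finset.mem_range.1 hj
      omega
    rw [h3, pow_succ]
    ring
  rw [h2] at h
  linear_combination -h

theorem es_le {x : Fin m → ℂ} (hx : ∀ i, ‖x i‖ ≤ 1) (r : ℕ) : ‖es r x‖ ≤ 2 ^ m := by
  rw [es]
  calc ‖∑ t ∈ powersetCard r (univ : Finset (Fin m)), ∏ i ∈ t, x i‖
      ≤ ∑ t ∈ powersetCard r (univ : Finset (Fin m)), (1 : ℝ) := by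
        refine (norm_sum_le _ _).trans (Finset.sum_le_sum fun t _ => ?_)
        rw [norm_prod]
        exact Finset.prod_le_one (fun i _ => norm_nonneg _) fun i _ => hx i
    _ ≤ ∑ t ∈ powerset (univ : Finset (Fin m)), (1 : ℝ) := by
        refine Finset.sum_le_sum_of_subset_of_nonneg ?_ fun _ _ _ => zero_le_one
        intro t ht
        rw [mem_powersetCard] at ht
        exact mem_powerset.2 ht.1
    _ = 2 ^ m := by
        rw [Finset.sum_const, card_powerset, card_univ, Fintype.card_fin, nsmul_eq_mul, mul_one]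
        push_cast
        rfl

theorem cof_le {x : Fin m → ℂ} (hx : ∀ i, ‖x i‖ ≤ 1) {a : ℂ} (ha : ‖a‖ ≤ 1) :
    ‖cof x a‖ ≤ m * 2 ^ m := by
  rw [cof]
  calc ‖∑ j ∈ range m, es j x * (-a) ^ (m - 1 - j)‖ ≤ ∑ _j ∈ range m, (2 : ℝ) ^ m := by
        refine (norm_sum_le _ _).trans (Finset.sum_le_sum fun j _ => ?_)
        rw [norm_mul, norm_pow, norm_neg]
        exact (mul_le_mul (es_le hx j) (pow_le_one₀ (norm_nonneg _) ha) (by positivity)
          (by positivity)).trans (le_of_eq (mul_one _))
    _ = m * 2 ^ m := by rw [Finset.sum_const, card_range, nsmul_eq_mul]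

theorem es_hol {X : Type} [NormedAddCommGroup X] [NormedSpace ℂ X] {D : Set X}
    {x : X → Fin m → ℂ} (hp : ∀ r, DifferentiableOn ℂ (fun w => ∑ i, x w i ^ r) D) (r : ℕ) :
    DifferentiableOn ℂ (fun w => es r (x w)) D := by
  induction r using Nat.strong_induction_on with
  | _ r ih =>
    rcases Nat.eq_zero_or_pos r with h0 | h0
    · subst h0
      have h1 : ∀ w, es 0 (x w) = 1 := fun w => by simp [es]
      simp only [h1]
      exact differentiableOn_const _
    · have hr : (r : ℂ) ≠ 0 := by exact_mod_cast h0.ne'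
      have h1 : ∀ w, es r (x w) = (r : ℂ)⁻¹ * ((-1) ^ (r + 1) *
          ∑ a ∈ antidiagonal r with a.1 < r, (-1) ^ a.1 * es a.1 (x w) * ∑ i, x w i ^ a.2) := by
        intro w
        rw [← es_newton, ← mul_assoc, inv_mul_cancel₀ hr, one_mul]
      simp only [h1]
      refine DifferentiableOn.const_mul (DifferentiableOn.const_mul ?_ _) _
      refine DifferentiableOn.fun_sum fun a ha => ?_
      have ha2 : a.1 < r := (Finset.mem_filter.1 ha).2
      exact ((ih a.1 ha2).const_mul _).mul (hp a.2)

end Pool.Agent.R892.CC
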