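import Mathlib

/-!
# Finitely many linear forms, one of which is large on finitely many given vectors
-/

set_option autoImplicit false

open Finset

namespace Pool.Agent.R892.CC

/-- the points `0, 1 / M, …, (M - 1) / M` -/
noncomputable def pt {M : ℕ} (i : Fin M) : ℂ := ((i : ℕ) : ℂ) / (M : ℂ)

theorem pt_inj {M : ℕ} : Function.Injective (pt : Fin M → ℂ) := by
  intro i j h
  have hM : (M : ℂ) ≠ 0 := by
    have := i.pos
    exact_mod_cast (by omega : M ≠ 0)
  have h1 : ((i : ℕ) : ℂ) / (M : ℂ) = ((j : ℕ) : ℂ) / (M : ℂ) := h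
  rw [div_left_inj' hM] at h1
  exact Fin.ext (by exact_mod_cast h1)

theorem pt_le {M : ℕ} (i : Fin M) : ‖pt i‖ ≤ 1 := by
  rw [pt, norm_div, Complex.norm_natCast, Complex.norm_natCast]
  have hM : (0 : ℝ) < M := by exact_mod_cast i.pos
  rw [div_le_one hM]
  exact_mod_cast i.2.le

/-- the value at `pt i` of the polynomial with the coefficients `v` -/
noncomputable def ev {N M : ℕ} (i : Fin M) (v : Fin N → ℂ) : ℂ := ∑ j : Fin N, pt i ^ (j : ℕ) * v j

theorem ev_low (N M : ℕ) : ∃ c : ℝ, 0 < c ∧ ∀ (e : Fin N → Fin M), Function.Injective e →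
    ∀ v : Fin N → ℂ, c * ‖v‖ ≤ ‖fun i => ev (e i) v‖ := by
  classical
  have h1 : ∀ e : Fin N → Fin M, ∃ c : ℝ, 0 < c ∧ (Function.Injective e →
      ∀ v : Fin N → ℂ, c * ‖v‖ ≤ ‖fun i => ev (e i) v‖) := by
    intro e
    by_cases he : Function.Injective e
    · let A : Matrix (Fin N) (Fin N) ℂ := Matrix.vandermonde (fun i => pt (e i))
      have hdet : A.det ≠ 0 := Matrix.det_vandermonde_ne_zero_iff.2 (pt_inj.comp he)
      let L : (Fin N → ℂ) →ₗ[ℂ] (Fin N → ℂ) := A.mulVecLin
      have hL : LinearMap.ker L = ⊥ := by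
        rw [LinearMap.ker_eq_bot]
        exact Matrix.mulVec_injective_of_isUnit ((Matrix.isUnit_iff_isUnit_det A).2
          (isUnit_iff_ne_zero.2 hdet))
      obtain ⟨K, hK, hanti⟩ := L.exists_antilipschitzWith hL
      refine ⟨(K : ℝ)⁻¹, by positivity, fun _ v => ?_⟩
      have h2 := hanti.le_mul_dist v 0
      rw [map_zero, dist_zero_right, dist_zero_right] at h2
      have h3 : L v = fun i => ev (e i) v := by
        funext i
        show (A.mulVec v) i = _
        simp [A, Matrix.mulVec, dotProduct, ev, Matrix.vandermonde_apply]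
      rw [h3] at h2
      have hK' : (0 : ℝ) < K := by exact_mod_cast hK
      rw [inv_mul_le_iff₀ hK']
      exact h2
    · exact ⟨1, one_pos, fun h => absurd h he⟩
  choose c hc0 hc using h1
  obtain ⟨c₀, hc₀, hle⟩ : ∃ c₀ : ℝ, 0 < c₀ ∧ ∀ e, c₀ ≤ c e := by
    rcases isEmpty_or_nonempty (Fin N → Fin M) with hem | hne
    · exact ⟨1, one_pos, fun e => isEmptyElim e⟩
    · obtain ⟨e₀, he₀⟩ := Finite.exists_min c
      exact ⟨c e₀, hc0 e₀, he₀⟩
  refine ⟨c₀, hc₀, fun e he v => ?_⟩
  exact (mul_le_mul_of_nonneg_right (hle e) (norm_nonneg _)).trans (hc e he v)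

/-- Among `m (N - 1) + 1` points there is one at which each of `m` given polynomials of degree less
than `N` is not small. -/
theorem exists_good {ι : Type} [Fintype ι] {N M : ℕ} (hM : Fintype.card ι * (N - 1) < M) :
    ∃ c : ℝ, 0 < c ∧ c ≤ 1 ∧ ∀ v : ι → Fin N → ℂ, ∃ i : Fin M, ∀ g, c * ‖v g‖ ≤ ‖ev i (v g)‖ := by
  classical
  obtain ⟨c, hc, hlow⟩ := ev_low N M
  refine ⟨min c 1, lt_min hc one_pos, min_le_right _ _, fun v => ?_⟩
  obtain ⟨c', hc'⟩ : ∃ c', c' = min c 1 := ⟨_, rfl⟩
  rw [← hc']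
  have hcc : c' ≤ c := by rw [hc']; exact min_le_left _ _
  obtain ⟨B, hB⟩ : ∃ B : ι → Finset (Fin M), B = fun g => univ.filter fun i =>
    ¬ (c' * ‖v g‖ ≤ ‖ev i (v g)‖) := ⟨_, rfl⟩
  have hcard : ∀ g, (B g).card ≤ N - 1 := by
    intro g
    by_contra hcon
    push Not at hcon
    rcases Nat.eq_zero_or_pos N with hN | hN
    · subst hN
      obtain ⟨i, hi⟩ := Finset.card_pos.1 (by omega : 0 < (B g).card)
      rw [hB] at hi
      simp only [mem_filter, mem_univ, true_and] at hi
      apply hi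
      have : ‖v g‖ = 0 := by
        rw [norm_eq_zero]
        exact Subsingleton.elim _ _
      rw [this, mul_zero]
      exact norm_nonneg _
    · obtain ⟨S, hS, hSc⟩ := Finset.exists_subset_card_eq (show N ≤ (B g).card by omega)
      let e : Fin N → Fin M := fun i => S.orderEmbOfFin hSc i
      have he : Function.Injective e := (S.orderEmbOfFin hSc).injective
      have hmem : ∀ i, e i ∈ B g := fun i => hS (S.orderEmbOfFin_mem hSc i)
      have h1 := hlow e he (v g)
      have hne : Nonempty (Fin N) := ⟨⟨0, hN⟩⟩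
      have h2 : ‖fun i => ev (e i) (v g)‖ < c' * ‖v g‖ := by
        have h4 : ∀ i, ‖ev (e i) (v g)‖ < c' * ‖v g‖ := by
          intro i
          have h3 := hmem i
          rw [hB] at h3
          simp only [mem_filter, mem_univ, true_and, not_le] at h3
          exact h3
        exact (pi_norm_lt_iff ((norm_nonneg _).trans_lt (h4 ⟨0, hN⟩))).2 h4
      have h3 : c' * ‖v g‖ ≤ c * ‖v g‖ := mul_le_mul_of_nonneg_right hcc (norm_nonneg _)
      linarith
  by_contra hcon
  push Not at hcon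
  have hcov : (univ : Finset (Fin M)) ⊆ univ.biUnion B := by
    intro i _
    obtain ⟨g, hg⟩ := hcon i
    rw [mem_biUnion]
    refine ⟨g, mem_univ _, ?_⟩
    rw [hB]
    simp only [mem_filter, mem_univ, true_and, not_le]
    exact hg
  have h1 := Finset.card_le_card hcov
  have h2 := (Finset.card_biUnion_le (s := (univ : Finset ι)) (t := B))
  have h3 : ∑ g : ι, (B g).card ≤ Fintype.card ι * (N - 1) := by
    calc ∑ g : ι, (B g).card ≤ ∑ _g : ι, (N - 1) := Finset.sum_le_sum fun g _ => hcard g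
      _ = _ := by rw [Finset.sum_const, smul_eq_mul, Finset.card_univ]
  rw [Finset.card_univ, Fintype.card_fin] at h1
  omega

theorem ev_le {N M : ℕ} (i : Fin M) (v : Fin N → ℂ) : ‖ev i v‖ ≤ ∑ j, ‖v j‖ := by
  refine (norm_sum_le _ _).trans (Finset.sum_le_sum fun j _ => ?_)
  rw [norm_mul, norm_pow]
  exact mul_le_of_le_one_left (norm_nonneg _) (pow_le_one₀ (norm_nonneg _) (pt_le i))

end Pool.Agent.R892.CC
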